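import Pool.Agent.Lib.MP_1e3e9c_ag.TV.Defs

/-! # Chart: coordinates with respect to a chart, walls

JOB Chart (130 lines).  `co_isCo`, `co_eq`: definition of `co` and uniqueness.  `co_add`, `co_neg`, `co_zero`, `co_nsmul`,
`co_sum`, `co_deg`: by uniqueness (`co_eq`).  `ample_iff`: uniqueness.
`wall_one`: let `J' = insert i (J.erase ρ)`, `c = co J (deg i)`, `g : G` ample.  `deg ρ = ∑_{i' ∈ J'} c'_{i'} deg i'` (`c' = co J' (deg ρ)`);
take the `J`-coordinate `ρ` of both sides: `1 = c'_i c_ρ` (`co_deg`: the coordinates of `deg i'`, `i' ∈ J.erase ρ`, at `ρ` are `0`).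
So `c_ρ` is `1` or `-1` (a unit of `ℤ`).  In the same way `g = ∑ g'_{i'} deg i'`, `g' = co J' g`, gives
`co J g ρ = g'_i c_ρ`; both `co J g ρ` and `g'_i` are positive, so `c_ρ = 1`.
`co_wall_self`, `co_wall`: `g = ∑_{i' ∈ J'} g'_{i'} deg i'`; take the `J`-coordinates at `ρ`: `co J g ρ = g'_i * 1`; at
`ρ' ∈ J`, `ρ' ≠ ρ`: `co J g ρ' = g'_{ρ'} + g'_i * co J (deg i) ρ'`.
`row`: by `T.wall` there is `ρ* ∈ J` such that `(J, ρ*, i)` is a wall.  `θ = co J D ρ* = co J' D i > 0` (`co_wall_self`,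
`D` ample), so `θ ≥ 1`.  For `ρ' ∈ J`, `ρ' ≠ ρ*`: `0 < co J' D ρ' = co J D ρ' - θ * co J (deg i) ρ'` (`co_wall`), so if
`co J (deg i) ρ' > 0` then `co J D ρ' > θ * co J (deg i) ρ' ≥ co J (deg i) ρ'`, and if `co J (deg i) ρ' ≤ 0` it is clear as
`co J D ρ' > 0`.  For `ρ' = ρ*`: `co J (deg i) ρ* = 1 ≤ θ` (`wall_one`).
`row2`: for `ρ' = ρ`: `co J (deg i') ρ = 1`, so this is `hp`.  For `ρ' ≠ ρ`: write `a = co J D ρ' - co J (deg i) ρ'`,
`e = co J (deg i') ρ'`; `a ≥ 0` by `row`; `a - (co J D ρ - co J (deg i) ρ) * e ≥ 0` by `row` for the chart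
`J' = insert i' (J.erase ρ)` (`i ∉ J'`) and `co_wall`.  If `e ≤ 0` then `a - p e ≥ a ≥ 0`; if `e > 0` then
`a - p e ≥ a - (co J D ρ - co J (deg i) ρ) * e ≥ 0` by `hp`. -/

set_option autoImplicit false

namespace Pool.Agent.Lib.MP_1e3e9c_ag.TV

variable {ι G : Type*} [Fintype ι] [DecidableEq ι] [AddCommGroup G] (T : ToricData ι G)

theorem co_isCo {J : Finset ι} (h : J ∈ T.charts) (g : G) : IsCo T.deg J g (T.co J g) := by
  unfold ToricData.co
  rw [dif_pos h]
  exact (T.basis J h g).choose_spec.1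

theorem co_eq {J : Finset ι} (h : J ∈ T.charts) {g : G} {c : ι → ℤ} (hc : IsCo T.deg J g c) :
    T.co J g = c := by
  exact (T.basis J h g).unique (co_isCo T h g) hc

theorem co_add {J : Finset ι} (h : J ∈ T.charts) (g g' : G) :
    T.co J (g + g') = T.co J g + T.co J g' := by
  have h1 := co_isCo T h g
  have h2 := co_isCo T h g'
  refine co_eq T h ⟨fun i hi => ?_, ?_⟩
  · rw [Pi.add_apply, h1.1 i hi, h2.1 i hi, add_zero]
  · have e : ∀ i, (T.co J g + T.co J g') i • T.deg i =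
        T.co J g i • T.deg i + T.co J g' i • T.deg i := fun i => by rw [Pi.add_apply, add_smul]
    rw [Finset.sum_congr rfl fun i _ => e i, Finset.sum_add_distrib, h1.2, h2.2]

theorem Chart_zsmul {J : Finset ι} (h : J ∈ T.charts) (n : ℤ) (g : G) :
    T.co J (n • g) = n • T.co J g := by
  have h1 := co_isCo T h g
  refine co_eq T h ⟨fun i hi => ?_, ?_⟩
  · rw [Pi.smul_apply, h1.1 i hi, smul_zero]
  · have e : ∀ i, (n • T.co J g) i • T.deg i = n • (T.co J g i • T.deg i) := fun i => by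
      rw [Pi.smul_apply, smul_assoc]
    rw [Finset.sum_congr rfl fun i _ => e i, ← Finset.smul_sum, h1.2]

theorem co_neg {J : Finset ι} (h : J ∈ T.charts) (g : G) : T.co J (-g) = - T.co J g := by
  have h1 := Chart_zsmul T h (-1) g
  rw [neg_one_zsmul, neg_one_zsmul] at h1
  exact h1

theorem co_zero {J : Finset ι} (h : J ∈ T.charts) : T.co J 0 = 0 := by
  have h1 := Chart_zsmul T h 0 (0 : G)
  rw [zero_smul, zero_smul] at h1
  exact h1

theorem co_nsmul {J : Finset ι} (h : J ∈ T.charts) (n : ℕ) (g : G) :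
    T.co J (n • g) = n • T.co J g := by
  have h1 := Chart_zsmul T h (n : ℤ) g
  rw [natCast_zsmul, natCast_zsmul] at h1
  exact h1

theorem co_sum {J : Finset ι} (h : J ∈ T.charts) {α : Type*} (s : Finset α) (g : α → G) :
    T.co J (∑ a ∈ s, g a) = ∑ a ∈ s, T.co J (g a) := by
  classical
  induction s using Finset.induction_on with
  | empty => rw [Finset.sum_empty, Finset.sum_empty, co_zero T h]
  | insert a s ha ih => rw [Finset.sum_insert ha, Finset.sum_insert ha, co_add T h, ih]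

theorem co_deg {J : Finset ι} (h : J ∈ T.charts) {i : ι} (hi : i ∈ J) :
    T.co J (T.deg i) = Pi.single i 1 := by
  refine co_eq T h ⟨fun j hj => ?_, ?_⟩
  · have hji : j ≠ i := fun e => hj (e ▸ hi)
    rw [Pi.single_eq_of_ne hji]
  · rw [Finset.sum_eq_single i]
    · rw [Pi.single_eq_same, one_smul]
    · intro j _ hji
      rw [Pi.single_eq_of_ne hji, zero_smul]
    · intro h0
      exact absurd (Finset.mem_univ i) h0

theorem ample_iff (g : G) : IsAmple T.deg T.charts g ↔ ∀ J ∈ T.charts, ∀ i ∈ J, 0 < T.co J g i := by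
  constructor
  · intro h J hJ i hi
    obtain ⟨c, hc, hpos⟩ := h J hJ
    rw [co_eq T hJ hc]
    exact hpos i hi
  · intro h J hJ
    exact ⟨T.co J g, co_isCo T hJ g, h J hJ⟩

theorem Chart_expand {J J' : Finset ι} (h : J ∈ T.charts) (h' : J' ∈ T.charts) (g : G) (ρ : ι) :
    T.co J g ρ = ∑ i', T.co J' g i' * T.co J (T.deg i') ρ := by
  have h1 := (co_isCo T h' g).2
  calc T.co J g ρ = T.co J (∑ i', T.co J' g i' • T.deg i') ρ := by rw [h1]
    _ = ∑ i', T.co J' g i' * T.co J (T.deg i') ρ := by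
      rw [co_sum T h, Finset.sum_apply]
      refine Finset.sum_congr rfl fun i' _ => ?_
      rw [Chart_zsmul T h, Pi.smul_apply, smul_eq_mul]

theorem Chart_wall {J : Finset ι} {ρ i : ι} (hW : T.IsWall J ρ i) (g : G) (ρ' : ι) :
    T.co J g ρ' = T.co (insert i (J.erase ρ)) g i * T.co J (T.deg i) ρ' +
      ∑ j ∈ J.erase ρ, T.co (insert i (J.erase ρ)) g j * (Pi.single j 1 : ι → ℤ) ρ' := by
  obtain ⟨hJ, hρ, hi, hJ'⟩ := hW
  rw [Chart_expand T hJ hJ' g ρ']
  rw [← Finset.sum_subset (Finset.subset_univ (insert i (J.erase ρ)))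
    (fun j _ hj => by rw [(co_isCo T hJ' g).1 j hj, zero_mul])]
  rw [Finset.sum_insert (fun h0 => hi (Finset.mem_of_mem_erase h0))]
  congr 1
  refine Finset.sum_congr rfl fun j hj => ?_
  rw [co_deg T hJ (Finset.mem_of_mem_erase hj)]

theorem Chart_wallA {J : Finset ι} {ρ i : ι} (hW : T.IsWall J ρ i) (g : G) :
    T.co J g ρ = T.co (insert i (J.erase ρ)) g i * T.co J (T.deg i) ρ := by
  rw [Chart_wall T hW g ρ, Finset.sum_eq_zero, add_zero]
  intro j hj
  rw [Pi.single_eq_of_ne (Finset.ne_of_mem_erase hj).symm, mul_zero]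

theorem Chart_wallB {J : Finset ι} {ρ i : ι} (hW : T.IsWall J ρ i) (g : G) {ρ' : ι} (h1 : ρ' ∈ J)
    (h2 : ρ' ≠ ρ) : T.co J g ρ' = T.co (insert i (J.erase ρ)) g i * T.co J (T.deg i) ρ' +
      T.co (insert i (J.erase ρ)) g ρ' := by
  rw [Chart_wall T hW g ρ']
  congr 1
  rw [Finset.sum_eq_single ρ']
  · rw [Pi.single_eq_same, mul_one]
  · intro j _ hj
    rw [Pi.single_eq_of_ne hj.symm, mul_zero]
  · intro h0
    exact absurd (Finset.mem_erase.2 ⟨h2, h1⟩) h0

theorem wall_one {J : Finset ι} {ρ i : ι} (hW : T.IsWall J ρ i) : T.co J (T.deg i) ρ = 1 := by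
  have h1 := Chart_wallA T hW (T.deg ρ)
  rw [co_deg T hW.1 hW.2.1, Pi.single_eq_same] at h1
  have h2 : IsUnit (T.co J (T.deg i) ρ) := IsUnit.of_mul_eq_one_right _ h1.symm
  obtain ⟨A, hA⟩ := T.ample
  have h3 := (ample_iff T A).1 hA
  have h4 := h3 J hW.1 ρ hW.2.1
  have h5 := h3 _ hW.2.2.2 i (Finset.mem_insert_self i _)
  have h6 := Chart_wallA T hW A
  rcases Int.isUnit_iff.1 h2 with h7 | h7
  · exact h7
  · rw [h7] at h6
    omega

theorem co_wall_self {J : Finset ι} {ρ i : ι} (hW : T.IsWall J ρ i) (g : G) :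
    T.co (insert i (J.erase ρ)) g i = T.co J g ρ := by
  rw [Chart_wallA T hW g, wall_one T hW, mul_one]

theorem co_wall {J : Finset ι} {ρ i : ι} (hW : T.IsWall J ρ i) (g : G) {ρ' : ι} (h1 : ρ' ∈ J)
    (h2 : ρ' ≠ ρ) : T.co (insert i (J.erase ρ)) g ρ' =
      T.co J g ρ' - T.co J g ρ * T.co J (T.deg i) ρ' := by
  have h3 := Chart_wallB T hW g h1 h2
  rw [co_wall_self T hW g] at h3
  rw [h3]
  ring

theorem row {J : Finset ι} (h : J ∈ T.charts) {D : G} (hD : IsAmple T.deg T.charts D) {i : ι}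
    (hi : i ∉ J) {ρ : ι} (hρ : ρ ∈ J) : T.co J (T.deg i) ρ ≤ T.co J D ρ := by
  obtain ⟨ρs, hρs, hJ'⟩ := T.wall J h i hi
  have hW : T.IsWall J ρs i := ⟨h, hρs, hi, hJ'⟩
  have hA := (ample_iff T D).1 hD
  have hθ := hA J h ρs hρs
  have hDρ := hA J h ρ hρ
  by_cases hne : ρ = ρs
  · subst hne
    rw [wall_one T hW]
    omega
  · have h1 := hA _ hJ' ρ (Finset.mem_insert_of_mem (Finset.mem_erase.2 ⟨hne, hρ⟩))
    rw [co_wall T hW D hρ hne] at h1
    rcases le_or_gt (T.co J (T.deg i) ρ) 0 with h2 | h2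
    · omega
    · have h3 : T.co J (T.deg i) ρ ≤ T.co J D ρs * T.co J (T.deg i) ρ :=
        le_mul_of_one_le_left h2.le (by omega)
      omega

theorem row2 {J : Finset ι} {ρ i' : ι} (hW : T.IsWall J ρ i') {D : G}
    (hD : IsAmple T.deg T.charts D) {i : ι} (hi : i ∉ J) (hi' : i ≠ i') (p : ℕ)
    (hp : (p : ℤ) + T.co J (T.deg i) ρ ≤ T.co J D ρ) {ρ' : ι} (hρ' : ρ' ∈ J) :
    0 ≤ T.co J (D - T.deg i - p • T.deg i') ρ' := by
  have hJ := hW.1
  have e : T.co J (D - T.deg i - p • T.deg i') ρ' =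
      T.co J D ρ' - T.co J (T.deg i) ρ' - (p : ℤ) * T.co J (T.deg i') ρ' := by
    rw [sub_eq_add_neg, sub_eq_add_neg, co_add T hJ, co_add T hJ, co_neg T hJ, co_neg T hJ,
      co_nsmul T hJ, Pi.add_apply, Pi.add_apply, Pi.neg_apply, Pi.neg_apply, Pi.smul_apply,
      nsmul_eq_mul]
    ring
  rw [e]
  by_cases hne : ρ' = ρ
  · subst hne
    rw [wall_one T hW]
    omega
  · have ha := row T hJ hD hi hρ'
    have hiJ' : i ∉ insert i' (J.erase ρ) := by
      intro h0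
      rcases Finset.mem_insert.1 h0 with h1 | h1
      · exact hi' h1
      · exact hi (Finset.mem_of_mem_erase h1)
    have hb := row T hW.2.2.2 hD hiJ'
      (Finset.mem_insert_of_mem (Finset.mem_erase.2 ⟨hne, hρ'⟩) : ρ' ∈ insert i' (J.erase ρ))
    rw [co_wall T hW D hρ' hne, co_wall T hW (T.deg i) hρ' hne] at hb
    rcases le_or_gt (T.co J (T.deg i') ρ') 0 with h2 | h2
    · have h3 : (p : ℤ) * T.co J (T.deg i') ρ' ≤ 0 :=
        mul_nonpos_of_nonneg_of_nonpos (Int.natCast_nonneg p) h2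
      omega
    · have h3 : (p : ℤ) * T.co J (T.deg i') ρ' ≤
          (T.co J D ρ - T.co J (T.deg i) ρ) * T.co J (T.deg i') ρ' :=
        mul_le_mul_of_nonneg_right (by omega) h2.le
      rw [sub_mul] at h3
      omega

end Pool.Agent.Lib.MP_1e3e9c_ag.TV
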