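import Mathlib

/-! # Deg: homogeneous polynomials for a grading by a group: degrees and scaling

JOB Deg (70 lines).  Both: write `F` as the sum of its monomials (`MvPolynomial.aeval_def`, `eval₂_eq`, `MvPolynomial.as_sum`);
for a monomial `d` of `F` with coefficient `≠ 0`: `∑ i, d i • w i = D` (`Finsupp.weight_apply`).
`coeff_aeval`: the term of `d` is zero if `d i ≠ 0` for some `i` with `P i = 0`; otherwise its degree is
`≤ ∑ d i * natDegree (P i) ≤ ∑ d i * φ (w i) = φ D` (the last sums over the `i` with `d i ≠ 0`), so its coefficient at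
`l > φ D` vanishes.  `aeval_scale`: `∏ (χ (w i) * P i) ^ d i = χ (∑ d i • w i) * ∏ P i ^ d i`. -/

set_option autoImplicit false

namespace Pool.Agent.Lib.MP_1e3e9c_ag.TV

open Polynomial

theorem coeff_aeval {k R ι G : Type*} [Field k] [CommRing R] [Algebra k R] [AddCommGroup G]
    [Fintype ι] (w : ι → G) (φ : G →+ ℤ) (F : MvPolynomial ι k) (D : G)
    (hF : F.IsWeightedHomogeneous w D) (P : ι → R[X])
    (hP : ∀ i, P i = 0 ∨ ((P i).natDegree : ℤ) ≤ φ (w i)) (l : ℕ) (hl : φ D < l) :
    (MvPolynomial.aeval P F).coeff l = 0 := by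
  rw [MvPolynomial.aeval_def, MvPolynomial.eval₂_eq', Polynomial.finsetSum_coeff]
  refine Finset.sum_eq_zero fun d hd => ?_
  have hw : ∑ i, d i • w i = D := by
    have h1 := hF (MvPolynomial.mem_support_iff.1 hd)
    rw [Finsupp.weight_apply, Finsupp.sum_fintype _ _ (fun i => zero_smul ℕ (w i))] at h1
    exact h1
  have h2 : (∏ i, P i ^ d i).coeff l = 0 := by
    by_cases h3 : ∃ i, d i ≠ 0 ∧ P i = 0
    · obtain ⟨i, hi, hPi⟩ := h3
      rw [Finset.prod_eq_zero (Finset.mem_univ i) (by rw [hPi, zero_pow hi]), Polynomial.coeff_zero]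
    · push Not at h3
      refine Polynomial.coeff_eq_zero_of_natDegree_lt ?_
      have h4 : (∏ i, P i ^ d i).natDegree ≤ ∑ i, d i * (P i).natDegree :=
        (Polynomial.natDegree_prod_le _ _).trans
          (Finset.sum_le_sum fun i _ => Polynomial.natDegree_pow_le)
      have h5 : ((∑ i, d i * (P i).natDegree : ℕ) : ℤ) ≤ φ D := by
        rw [← hw, map_sum]
        push_cast
        refine Finset.sum_le_sum fun i _ => ?_
        rw [map_nsmul, nsmul_eq_mul]
        by_cases hdi : d i = 0
        · rw [hdi]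
          simp
        · refine mul_le_mul_of_nonneg_left ?_ (Int.natCast_nonneg _)
          exact (hP i).resolve_left (h3 i hdi)
      have h6 : ((∏ i, P i ^ d i).natDegree : ℤ) < (l : ℤ) :=
        lt_of_le_of_lt ((Int.ofNat_le.2 h4).trans h5) hl
      exact_mod_cast h6
  rw [Polynomial.algebraMap_apply, Polynomial.coeff_C_mul, h2, mul_zero]

theorem aeval_scale {k R ι G : Type*} [Field k] [CommRing R] [Algebra k R] [AddCommGroup G]
    [Fintype ι] (w : ι → G) (F : MvPolynomial ι k) (D : G)
    (hF : F.IsWeightedHomogeneous w D) (P : ι → R) (χ : Multiplicative G →* R) :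
    MvPolynomial.aeval (fun i => χ (Multiplicative.ofAdd (w i)) * P i) F
      = χ (Multiplicative.ofAdd D) * MvPolynomial.aeval P F := by
  rw [MvPolynomial.aeval_def, MvPolynomial.eval₂_eq', MvPolynomial.aeval_def,
    MvPolynomial.eval₂_eq', Finset.mul_sum]
  refine Finset.sum_congr rfl fun d hd => ?_
  have hw : ∑ i, d i • w i = D := by
    have h1 := hF (MvPolynomial.mem_support_iff.1 hd)
    rw [Finsupp.weight_apply, Finsupp.sum_fintype _ _ (fun i => zero_smul ℕ (w i))] at h1
    exact h1
  have h2 : ∏ i, (χ (Multiplicative.ofAdd (w i))) ^ d i = χ (Multiplicative.ofAdd D) := by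
    rw [← hw, ofAdd_sum, map_prod]
    refine Finset.prod_congr rfl fun i _ => ?_
    rw [ofAdd_nsmul, map_pow]
  have h3 : ∏ i, (χ (Multiplicative.ofAdd (w i)) * P i) ^ d i =
      χ (Multiplicative.ofAdd D) * ∏ i, P i ^ d i := by
    rw [← h2, ← Finset.prod_mul_distrib]
    refine Finset.prod_congr rfl fun i _ => ?_
    rw [mul_pow]
  rw [h3]
  ring

end Pool.Agent.Lib.MP_1e3e9c_ag.TV
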