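import Pool.Agent.Lib.MP_1e3e9c_ag.TV.SR
import Pool.Agent.Lib.MP_1e3e9c_ag.TV.Deg

/-! # Clear: a rational map from the line to a toric variety is a morphism

JOB Clear (130 lines; uses SR, Deg, Chart; compare the complete file `RC/Clear.lean`).  Call `t : k` bad for `Q` if for every chart `J` some
`Q i`, `i ∈ J`, vanishes at `t`.  By `hC.generic` the bad `t` are zeros of the nonzero polynomial `∏_{i ∈ J} Q i`: finitely many.
Induction on the number of bad `t` (over all curves `Q` on `X`).  Let `t0` be bad.  Let `v i = rootMultiplicity t0 (Q i)`; apply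
`semistable` with `Γ = WithZero (Multiplicative ℤ)` to `v' i = 0` if `Q i = 0` and `v' i = exp (- v i)` otherwise: there is a chart
`J` with `Q i ≠ 0` for `i ∈ J` and `v i ≥ w i := ∑_{ρ ∈ J} co J (deg i) ρ * v ρ` for all `i` with `Q i ≠ 0`, with equality for `i ∈ J`.
Let `Q' i = 0` if `Q i = 0` and otherwise the polynomial with `Q' i = (X - C t0) ^ (- w i) * Q i` in `K = FractionRing k[X]` (if `w i ≥ 0` it is
the quotient by `(X - C t0) ^ w i`, which divides `Q i` as `w i ≤ v i`; if `w i < 0` it is the product).  With the hom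
`χ g = (X - C t0) ^ (- ∑_{ρ ∈ J} co J g ρ * v ρ)` (`Multiplicative G →* K`, zpow) and `aeval_scale` over `R = K`: `aeval Q' (F j) = 0` in
`K`, hence in `k[X]`.  `∏ Q' i ^ m i = χ (∑ m i • deg i) * ∏ Q i ^ m i` in `K`, so `nonconst` holds for `Q'` with the same `m`, `m'`.
`Q' i` does not vanish at `t0` for `i ∈ J`, so `t0` is not bad for `Q'`; at the other `t` the zeros of `Q'` are those of `Q`. -/

set_option autoImplicit false

namespace Pool.Agent.Lib.MP_1e3e9c_ag.TV

open Polynomial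

private theorem clear_prod {α : Type*} (s : Finset α) (f : α → ℤ) :
    ∏ a ∈ s, ((Multiplicative.ofAdd (f a) : Multiplicative ℤ) : WithZero (Multiplicative ℤ)) =
      ((Multiplicative.ofAdd (∑ a ∈ s, f a) : Multiplicative ℤ) :
        WithZero (Multiplicative ℤ)) := by
  classical
  induction s using Finset.induction_on with
  | empty => simp
  | insert a s ha ih =>
    rw [Finset.prod_insert ha, Finset.sum_insert ha, ih, ofAdd_add, WithZero.coe_mul]

private theorem clear_step {k ι G Jt : Type*} [Field k] [Fintype ι] [DecidableEq ι]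
    [AddCommGroup G]
    (T : ToricData ι G) (F : Jt → MvPolynomial ι k) (D : Jt → G)
    (hF : ∀ j, (F j).IsWeightedHomogeneous T.deg (D j))
    (Q : ι → k[X]) (hQ : ∀ j, MvPolynomial.aeval Q (F j) = 0) (hC : IsCurve T Q) (t0 : k) :
    ∃ Q' : ι → k[X], (∀ j, MvPolynomial.aeval Q' (F j) = 0) ∧ IsCurve T Q' ∧
      (∃ J ∈ T.charts, ∀ i ∈ J, (Q' i).eval t0 ≠ 0) ∧
      ∀ t, t ≠ t0 → ∀ i, (Q i).eval t ≠ 0 → (Q' i).eval t ≠ 0 := by
  classical
  have hU : ∀ i, ∃ (e : ℕ) (U : k[X]), Q i = (X - C t0) ^ e * U ∧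
      (Q i ≠ 0 → U.eval t0 ≠ 0) := by
    intro i
    by_cases hi : Q i = 0
    · exact ⟨0, 0, by rw [hi, mul_zero], fun h => absurd hi h⟩
    · obtain ⟨U, hU1, hU2⟩ := exists_eq_pow_rootMultiplicity_mul_and_not_dvd (Q i) hi t0
      exact ⟨_, U, hU1, fun _ h => hU2 (dvd_iff_isRoot.2 h)⟩
  choose e U hU1 hU2 using hU
  set v : ι → WithZero (Multiplicative ℤ) := fun i =>
    if Q i = 0 then 0 else
      ((Multiplicative.ofAdd (-(e i : ℤ)) : Multiplicative ℤ) : WithZero (Multiplicative ℤ))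
    with hv
  have hv1 : ∀ i, Q i ≠ 0 → v i = ((Multiplicative.ofAdd (-(e i : ℤ)) : Multiplicative ℤ) :
      WithZero (Multiplicative ℤ)) := by
    intro i hi
    simp only [hv, if_neg hi]
  have hv2 : ∀ i, v i ≠ 0 → Q i ≠ 0 := by
    intro i hi h
    apply hi
    simp only [hv, if_pos h]
  have hgen : ∃ J ∈ T.charts, ∀ i ∈ J, v i ≠ 0 := by
    obtain ⟨J, hJ, h⟩ := hC.generic
    refine ⟨J, hJ, fun i hi => ?_⟩
    rw [hv1 i (h i hi)]
    exact WithZero.coe_ne_zero
  obtain ⟨J, hJ, hJ1, hJ2⟩ := semistable T v hgen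
  set w : G → ℤ := fun g => ∑ ρ ∈ J, T.co J g ρ * (e ρ : ℤ) with hw
  have hle : ∀ i, Q i ≠ 0 → w (T.deg i) ≤ e i := by
    intro i hi
    have h1 := hJ2 i
    have h2 : ∏ ρ ∈ J, v ρ ^ T.co J (T.deg i) ρ =
        ((Multiplicative.ofAdd (-(w (T.deg i))) : Multiplicative ℤ) :
          WithZero (Multiplicative ℤ)) := by
      have h3 : ∀ ρ ∈ J, v ρ ^ T.co J (T.deg i) ρ =
          ((Multiplicative.ofAdd (-(T.co J (T.deg i) ρ * (e ρ : ℤ))) : Multiplicative ℤ) :
            WithZero (Multiplicative ℤ)) := by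
        intro ρ hρ
        rw [hv1 ρ (hv2 ρ (hJ1 ρ hρ)), ← WithZero.coe_zpow, ← ofAdd_zsmul, smul_eq_mul]
        have h4 : T.co J (T.deg i) ρ * -(e ρ : ℤ) = -(T.co J (T.deg i) ρ * (e ρ : ℤ)) := by
          ring
        rw [h4]
      rw [Finset.prod_congr rfl h3, clear_prod]
      rw [Finset.sum_neg_distrib]
    rw [h2, hv1 i hi, WithZero.coe_le_coe, Multiplicative.ofAdd_le] at h1
    linarith
  have hwJ : ∀ i ∈ J, w (T.deg i) = e i := by
    intro i hi
    simp only [hw]
    rw [co_deg T hJ hi, Finset.sum_eq_single i]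
    · rw [Pi.single_eq_same, one_mul]
    · intro b _ hb
      rw [Pi.single_eq_of_ne hb, zero_mul]
    · intro h
      exact absurd hi h
  have hw0 : w 0 = 0 := by
    simp only [hw]
    rw [co_zero T hJ]
    simp
  have hwadd : ∀ g g', w (g + g') = w g + w g' := by
    intro g g'
    simp only [hw]
    rw [co_add T hJ, ← Finset.sum_add_distrib]
    refine Finset.sum_congr rfl (fun ρ _ => ?_)
    rw [Pi.add_apply, add_mul]
  set K := FractionRing k[X] with hK
  have hinj : Function.Injective (algebraMap k[X] K) := IsFractionRing.injective k[X] K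
  set π : K := algebraMap k[X] K (X - C t0) with hπ
  have hπ0 : π ≠ 0 := by
    intro h
    have h1 : algebraMap k[X] K (X - C t0) = algebraMap k[X] K 0 := by
      rw [map_zero]
      exact h
    exact X_sub_C_ne_zero t0 (hinj h1)
  let χ : Multiplicative G →* K :=
    { toFun := fun g => π ^ (-(w (Multiplicative.toAdd g)))
      map_one' := by
        rw [toAdd_one, hw0, neg_zero, zpow_zero]
      map_mul' := by
        intro g g'
        rw [toAdd_mul, hwadd, neg_add, zpow_add₀ hπ0] }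
  have hχ : ∀ g : G, χ (Multiplicative.ofAdd g) = π ^ (-(w g)) := fun g => rfl
  have hχ0 : ∀ g : G, χ (Multiplicative.ofAdd g) ≠ 0 := by
    intro g
    rw [hχ]
    exact zpow_ne_zero _ hπ0
  set Q' : ι → k[X] := fun i =>
    if Q i = 0 then 0 else (X - C t0) ^ ((e i : ℤ) - w (T.deg i)).toNat * U i with hQ'
  have hQ'1 : ∀ i, algebraMap k[X] K (Q' i) =
      χ (Multiplicative.ofAdd (T.deg i)) * algebraMap k[X] K (Q i) := by
    intro i
    by_cases hi : Q i = 0
    · simp only [hQ', if_pos hi]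
      rw [hi, map_zero, mul_zero]
    · simp only [hQ', if_neg hi]
      rw [hχ]
      have h1 := hU1 i
      have h2 : algebraMap k[X] K (Q i) = π ^ (e i : ℤ) * algebraMap k[X] K (U i) := by
        conv_lhs => rw [h1]
        rw [map_mul, map_pow, zpow_natCast]
      rw [h2, map_mul, map_pow, ← mul_assoc, ← zpow_add₀ hπ0, ← zpow_natCast,
        Int.toNat_of_nonneg (sub_nonneg.2 (hle i hi))]
      rw [← hπ, show (e i : ℤ) - w (T.deg i) = -w (T.deg i) + (e i : ℤ) by ring]
  have hmon : ∀ m : ι → ℕ, algebraMap k[X] K (∏ i, Q' i ^ m i) =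
      χ (Multiplicative.ofAdd (∑ i, m i • T.deg i)) * algebraMap k[X] K (∏ i, Q i ^ m i) := by
    intro m
    rw [map_prod, map_prod, ofAdd_sum, map_prod, ← Finset.prod_mul_distrib]
    refine Finset.prod_congr rfl (fun i _ => ?_)
    rw [map_pow, map_pow, hQ'1, ofAdd_nsmul, map_pow, mul_pow]
  have hJev : ∀ i ∈ J, (Q' i).eval t0 ≠ 0 := by
    intro i hi
    have hi0 : Q i ≠ 0 := hv2 i (hJ1 i hi)
    simp only [hQ', if_neg hi0]
    rw [hwJ i hi, sub_self, Int.toNat_zero, pow_zero, one_mul]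
    exact hU2 i hi0
  refine ⟨Q', ?_, ⟨⟨J, hJ, ?_⟩, ?_⟩, ⟨J, hJ, hJev⟩, ?_⟩
  · intro j
    apply hinj
    rw [map_zero, ← MvPolynomial.aeval_algebraMap_apply]
    have h1 : (algebraMap k[X] K ∘ Q') =
        fun i => χ (Multiplicative.ofAdd (T.deg i)) * algebraMap k[X] K (Q i) :=
      funext (fun i => hQ'1 i)
    have h2 := aeval_scale T.deg (F j) (D j) (hF j) (fun i => algebraMap k[X] K (Q i)) χ
    have h3 : MvPolynomial.aeval (fun i => algebraMap k[X] K (Q i)) (F j) = 0 := by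
      have h4 := MvPolynomial.aeval_algebraMap_apply K Q (F j)
      rw [hQ j, map_zero] at h4
      exact h4
    rw [h3, mul_zero] at h2
    exact (congrArg (fun f => MvPolynomial.aeval f (F j)) h1).trans h2
  · intro i hi h
    apply hJev i hi
    rw [h, eval_zero]
  · obtain ⟨m, m', hmm, hm0, hmc⟩ := hC.nonconst
    refine ⟨m, m', hmm, ?_, ?_⟩
    · intro h
      have h1 := hmon m'
      rw [h, map_zero] at h1
      have h2 := (mul_eq_zero.1 h1.symm).resolve_left (hχ0 _)
      apply hm0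
      apply hinj
      rw [h2, map_zero]
    · intro c h
      apply hmc c
      apply hinj
      have h1 := hmon m
      rw [h, map_mul, hmon m', hmm] at h1
      rw [map_mul]
      have h2 : χ (Multiplicative.ofAdd (∑ i, m' i • T.deg i)) *
          (algebraMap k[X] K (∏ i, Q i ^ m i)) =
          χ (Multiplicative.ofAdd (∑ i, m' i • T.deg i)) *
          (algebraMap k[X] K (C c) * algebraMap k[X] K (∏ i, Q i ^ m' i)) := by
        rw [← h1]
        ring
      exact mul_left_cancel₀ (hχ0 _) h2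
  · intro t ht i hi
    have hi0 : Q i ≠ 0 := by
      intro h
      apply hi
      rw [h, eval_zero]
    simp only [hQ', if_neg hi0]
    rw [eval_mul, eval_pow, eval_sub, eval_X, eval_C]
    refine mul_ne_zero (pow_ne_zero _ (sub_ne_zero.2 ht)) ?_
    intro h
    apply hi
    rw [hU1 i, eval_mul, h, mul_zero]

theorem clear {k ι G Jt : Type*} [Field k] [Fintype ι] [DecidableEq ι] [AddCommGroup G]
    (T : ToricData ι G) (F : Jt → MvPolynomial ι k) (D : Jt → G)
    (hF : ∀ j, (F j).IsWeightedHomogeneous T.deg (D j))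
    (Q : ι → k[X]) (hQ : ∀ j, MvPolynomial.aeval Q (F j) = 0) (hC : IsCurve T Q) :
    ∃ Q' : ι → k[X], (∀ j, MvPolynomial.aeval Q' (F j) = 0) ∧ IsCurve T Q' ∧
      ∀ t : k, ∃ J ∈ T.charts, ∀ i ∈ J, (Q' i).eval t ≠ 0 := by
  classical
  have key : ∀ (s : Finset k) (Q : ι → k[X]), (∀ j, MvPolynomial.aeval Q (F j) = 0) →
      IsCurve T Q → (∀ t : k, t ∉ s → ∃ J ∈ T.charts, ∀ i ∈ J, (Q i).eval t ≠ 0) →
      ∃ Q' : ι → k[X], (∀ j, MvPolynomial.aeval Q' (F j) = 0) ∧ IsCurve T Q' ∧
        ∀ t : k, ∃ J ∈ T.charts, ∀ i ∈ J, (Q' i).eval t ≠ 0 := by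
    intro s
    induction s using Finset.induction_on with
    | empty =>
      intro Q hQ hC h
      exact ⟨Q, hQ, hC, fun t => h t (Finset.notMem_empty t)⟩
    | insert a s ha ih =>
      intro Q hQ hC h
      obtain ⟨Q1, h1, h2, h3, h4⟩ := clear_step T F D hF Q hQ hC a
      refine ih Q1 h1 h2 ?_
      intro t ht
      by_cases hta : t = a
      · rw [hta]
        exact h3
      · obtain ⟨J, hJ, hJ1⟩ := h t (by
          rw [Finset.mem_insert, not_or]
          exact ⟨hta, ht⟩)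
        exact ⟨J, hJ, fun i hi => h4 t hta i (hJ1 i hi)⟩
  obtain ⟨J, hJ, hJ1⟩ := hC.generic
  refine key (∏ i ∈ J, Q i).roots.toFinset Q hQ hC ?_
  intro t ht
  refine ⟨J, hJ, fun i hi h => ht ?_⟩
  rw [Multiset.mem_toFinset, mem_roots (Finset.prod_ne_zero_iff.2 hJ1), IsRoot.def, eval_prod]
  exact Finset.prod_eq_zero hi h

end Pool.Agent.Lib.MP_1e3e9c_ag.TV
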