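import Mathlib

/-! # Smooth projective toric varieties by their Cox data

A smooth projective toric variety `V` is given by its homogeneous coordinates (`ι`, one for every ray of
the fan), the class group `G`, the degrees `deg i : G` of the coordinates (the classes of the torus
invariant divisors) and the complements `J` of the maximal cones (`charts`): `V` is the quotient of
`{x | for some J in charts x i ≠ 0 for all i in J}` by the torus `Hom(G, k*)`. -/

set_option autoImplicit false

namespace Pool.Agent.Lib.MP_1e3e9c_ag.TV

open Polynomial

/-- `g = ∑ i, c i • deg i` where `c i = 0` for `i ∉ J` -/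
def IsCo {ι G : Type*} [Fintype ι] [AddCommGroup G] (deg : ι → G) (J : Finset ι) (g : G)
    (c : ι → ℤ) : Prop :=
  (∀ i, i ∉ J → c i = 0) ∧ ∑ i, c i • deg i = g

/-- `g` is ample: for every chart `J` it is a combination of the degrees of the coordinates in `J` with
positive coefficients (strict convexity of the support function). -/
def IsAmple {ι G : Type*} [Fintype ι] [AddCommGroup G] (deg : ι → G)
    (charts : Finset (Finset ι)) (g : G) : Prop :=
  ∀ J ∈ charts, ∃ c : ι → ℤ, IsCo deg J g c ∧ ∀ i ∈ J, 0 < c i

/-- Cox data of a smooth projective toric variety: the degrees of the coordinates in a chart are a basis of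
the class group (smoothness); every facet of a maximal cone lies in another maximal cone (`wall`:
completeness); every coordinate vanishes somewhere (`divisor`); there is an ample class. -/
structure ToricData (ι G : Type*) [Fintype ι] [DecidableEq ι] [AddCommGroup G] where
  deg : ι → G
  charts : Finset (Finset ι)
  nonempty : charts.Nonempty
  basis : ∀ J ∈ charts, ∀ g : G, ∃! c : ι → ℤ, IsCo deg J g c
  wall : ∀ J ∈ charts, ∀ i, i ∉ J → ∃ ρ ∈ J, insert i (J.erase ρ) ∈ charts
  divisor : ∀ i, ∃ J ∈ charts, i ∉ J
  ample : ∃ A : G, IsAmple deg charts A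

variable {ι G : Type*} [Fintype ι] [DecidableEq ι] [AddCommGroup G]

/-- the coordinates of the class `g` in the basis `deg i`, `i ∈ J` (`0` outside of `J`) -/
noncomputable def ToricData.co (T : ToricData ι G) (J : Finset ι) (g : G) : ι → ℤ :=
  open Classical in if h : J ∈ T.charts then (T.basis J h g).choose else 0

/-- `(J, ρ, i)` is a wall: `J` and `insert i (J.erase ρ)` are charts.  The corresponding torus invariant
curve `C` is given by the vanishing of all the coordinates outside of `insert i J`; the intersection
number of `C` with the class `g` is `T.co J g ρ`. -/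
def ToricData.IsWall (T : ToricData ι G) (J : Finset ι) (ρ i : ι) : Prop :=
  J ∈ T.charts ∧ ρ ∈ J ∧ i ∉ J ∧ insert i (J.erase ρ) ∈ T.charts

/-- the canonical class -/
def ToricData.K (T : ToricData ι G) : G := - ∑ i, T.deg i

/-- `Q` is a nonconstant rational map from the line to `V`: for some chart `J` the `Q i`, `i ∈ J`, are not
zero, and there are two monomials of the same degree in the `Q i` whose quotient is not constant. -/
structure IsCurve {k : Type*} [Field k] (T : ToricData ι G) (Q : ι → k[X]) : Prop where
  generic : ∃ J ∈ T.charts, ∀ i ∈ J, Q i ≠ 0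
  nonconst : ∃ m m' : ι → ℕ, ∑ i, m i • T.deg i = ∑ i, m' i • T.deg i ∧
    ∏ i, Q i ^ m' i ≠ 0 ∧ ∀ c : k, ∏ i, Q i ^ m i ≠ C c * ∏ i, Q i ^ m' i

end Pool.Agent.Lib.MP_1e3e9c_ag.TV
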