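import Pool.Agent.Lib.MP_1e3e9c_ag.TV.Defs

/-! # Desc: descent of a nonconstant solution to an algebraically closed field (toric case)

JOB Desc (100 lines).  An edit of the complete file `Pool/Agent/Lib/MP_1e3e9c_ag/RC/Desc.lean` (the same statement for weighted
projective spaces; read it): universal polynomials `U i` with indeterminate coefficients, `I` the kernel of the evaluation at the
coefficients of `P`, Nullstellensatz (a point of the zero locus of `I` at which finitely many elements outside of `I` do not vanish).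
Open conditions: for the chart `J` of `hC.generic` one nonzero coefficient of every `P i`, `i ∈ J`; one nonzero coefficient of
`∏ P i ^ m' i`; and a nonzero minor of the coefficients of the two linearly independent polynomials `∏ P i ^ m i`, `∏ P i ^ m' i`. -/

set_option autoImplicit false

namespace Pool.Agent.Lib.MP_1e3e9c_ag.TV

open Polynomial

/-- the generic polynomial with the coefficients `y (i, l)`, `l < n` -/
private noncomputable def genPoly {S ι : Type*} [CommSemiring S] {n : ℕ} (y : ι × Fin n → S)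
    (i : ι) : S[X] :=
  ∑ l : Fin n, C (y (i, l)) * X ^ (l : ℕ)

private theorem genPoly_coeff {S ι : Type*} [CommSemiring S] {n : ℕ} (y : ι × Fin n → S)
    (i : ι) (l : Fin n) : (genPoly y i).coeff (l : ℕ) = y (i, l) := by
  unfold genPoly
  rw [Polynomial.finsetSum_coeff, Finset.sum_eq_single l]
  · simp
  · intro b _ hb
    rw [Polynomial.coeff_C_mul_X_pow, if_neg]
    intro h
    exact hb (Fin.ext h.symm)
  · intro h
    exact absurd (Finset.mem_univ l) h

private theorem map_genPoly {S T ι : Type*} [CommSemiring S] [CommSemiring T] {n : ℕ}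
    (f : S →+* T) (y : ι × Fin n → S) (i : ι) :
    Polynomial.map f (genPoly y i) = genPoly (fun p => f (y p)) i := by
  unfold genPoly
  rw [Polynomial.map_sum]
  exact Finset.sum_congr rfl fun l _ => by simp

private theorem genPoly_self {S ι : Type*} [CommSemiring S] {n : ℕ} (P : ι → S[X])
    (h : ∀ i, (P i).natDegree < n) (i : ι) :
    genPoly (fun p : ι × Fin n => (P p.1).coeff (p.2 : ℕ)) i = P i := by
  unfold genPoly
  conv_rhs => rw [Polynomial.as_sum_range' (P i) n (h i)]
  rw [Finset.sum_range]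
  exact Finset.sum_congr rfl fun l _ => by rw [Polynomial.C_mul_X_pow_eq_monomial]

private theorem exists_minor {κ : Type*} [Field κ] {A D : κ[X]} (hD : D ≠ 0)
    (h : ∀ c : κ, A ≠ C c * D) :
    ∃ l l' : ℕ, A.coeff l * D.coeff l' - A.coeff l' * D.coeff l ≠ 0 := by
  obtain ⟨l', hl'⟩ : ∃ l', D.coeff l' ≠ 0 := by
    by_contra hcon
    push Not at hcon
    exact hD (Polynomial.ext fun n => by rw [hcon n, Polynomial.coeff_zero])
  by_contra hcon
  push Not at hcon
  refine h (A.coeff l' / D.coeff l') (Polynomial.ext fun l => ?_)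
  have h1 := hcon l l'
  rw [Polynomial.coeff_C_mul, div_mul_eq_mul_div, eq_div_iff hl']
  exact sub_eq_zero.1 h1

private theorem coeff_mapAlgHom {k R S : Type*} [CommSemiring k] [CommSemiring R] [CommSemiring S]
    [Algebra k R] [Algebra k S] (ψ : R →ₐ[k] S) (q : R[X]) (m : ℕ) :
    ψ (q.coeff m) = (Polynomial.mapAlgHom ψ q).coeff m := by
  show _ = (Polynomial.map _ q).coeff m
  rw [Polynomial.coeff_map]
  rfl

theorem descend {k κ ι G J : Type*} [Field k] [IsAlgClosed k] [Field κ] [Algebra k κ]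
    [Fintype ι] [DecidableEq ι] [AddCommGroup G] (T : ToricData ι G)
    (F : J → MvPolynomial ι k) (P : ι → κ[X])
    (hP : ∀ j, MvPolynomial.aeval P (F j) = 0) (hC : IsCurve T P) :
    ∃ Q : ι → k[X], (∀ j, MvPolynomial.aeval Q (F j) = 0) ∧ IsCurve T Q := by
  classical
  set n : ℕ := (Finset.univ.sup fun i => (P i).natDegree) + 1 with hn
  have hdeg : ∀ i, (P i).natDegree < n := fun i =>
    Nat.lt_succ_of_le (Finset.le_sup (f := fun i => (P i).natDegree) (Finset.mem_univ i))
  let x : ι × Fin n → κ := fun p => (P p.1).coeff (p.2 : ℕ)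
  let U : ι → (MvPolynomial (ι × Fin n) k)[X] := fun i =>
    genPoly (fun p : ι × Fin n => (MvPolynomial.X p : MvPolynomial (ι × Fin n) k)) i
  have hmapk : ∀ (y : ι × Fin n → k) (i : ι),
      Polynomial.mapAlgHom (MvPolynomial.aeval y : MvPolynomial (ι × Fin n) k →ₐ[k] k) (U i) =
        genPoly y i := by
    intro y i
    show Polynomial.map _ (genPoly _ i) = _
    rw [map_genPoly]
    unfold genPoly
    exact Finset.sum_congr rfl fun l _ => by simp
  have hmapx : ∀ i,
      Polynomial.mapAlgHom (MvPolynomial.aeval x : MvPolynomial (ι × Fin n) k →ₐ[k] κ) (U i) =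
        P i := by
    intro i
    refine Eq.trans ?_ (genPoly_self P hdeg i)
    show Polynomial.map _ (genPoly _ i) = _
    rw [map_genPoly]
    unfold genPoly
    exact Finset.sum_congr rfl fun l _ => by simp [x]
  -- the prime ideal of the point `x`
  let φ : MvPolynomial (ι × Fin n) k →ₐ[k] κ := MvPolynomial.aeval x
  let I : Ideal (MvPolynomial (ι × Fin n) k) := RingHom.ker φ
  have hI : I.IsPrime := RingHom.ker_isPrime φ
  -- open conditions
  obtain ⟨J0, hJ0, hPb⟩ := hC.generic
  let lb : ι → Fin n := fun i => ⟨(P i).natDegree, hdeg i⟩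
  have hlb : ∀ i ∈ J0, (P i).coeff (lb i : ℕ) ≠ 0 := by
    intro i hi
    show (P i).leadingCoeff ≠ 0
    exact Polynomial.leadingCoeff_ne_zero.2 (hPb i hi)
  obtain ⟨m, m', hmm, hPj, hne⟩ := hC.nonconst
  obtain ⟨l, l', hminor⟩ := exists_minor hPj hne
  let g : MvPolynomial (ι × Fin n) k :=
    (∏ i, U i ^ m i).coeff l * (∏ i, U i ^ m' i).coeff l' -
      (∏ i, U i ^ m i).coeff l' * (∏ i, U i ^ m' i).coeff l
  let g' : MvPolynomial (ι × Fin n) k :=
    (∏ i ∈ J0, MvPolynomial.X (i, lb i)) * g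
  have hgψ : ∀ (a b : ι → ℕ) (l₁ l₂ : ℕ),
      φ ((∏ i, U i ^ a i).coeff l₁ * (∏ i, U i ^ b i).coeff l₂) =
      (∏ i, P i ^ a i).coeff l₁ * (∏ i, P i ^ b i).coeff l₂ := by
    intro a b l₁ l₂
    rw [map_mul, coeff_mapAlgHom, coeff_mapAlgHom, map_prod, map_prod]
    simp only [map_pow, φ, hmapx]
  have hg : φ g ≠ 0 := by
    show φ (_ * _ - _ * _) ≠ 0
    rw [map_sub, hgψ, hgψ]
    exact hminor
  have hXx : ∀ p : ι × Fin n, φ (MvPolynomial.X p) = x p := fun p => MvPolynomial.aeval_X x p
  have hg' : φ g' ≠ 0 := by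
    show φ (_ * _) ≠ 0
    rw [map_mul, map_prod]
    refine mul_ne_zero (Finset.prod_ne_zero_iff.2 fun b hb => ?_) hg
    rw [hXx]
    exact hlb b hb
  have hg'I : g' ∉ MvPolynomial.vanishingIdeal k (MvPolynomial.zeroLocus k I) := by
    rw [MvPolynomial.IsPrime.vanishingIdeal_zeroLocus]
    exact hg'
  rw [MvPolynomial.mem_vanishingIdeal_iff] at hg'I
  push Not at hg'I
  obtain ⟨y, hyI, hy⟩ := hg'I
  rw [MvPolynomial.mem_zeroLocus_iff] at hyI
  let ψ : MvPolynomial (ι × Fin n) k →ₐ[k] k := MvPolynomial.aeval y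
  have hψX : ∀ p : ι × Fin n, ψ (MvPolynomial.X p) = y p := fun p => MvPolynomial.aeval_X y p
  have hy' : ψ g' ≠ 0 := hy
  have hy1 : (∏ b ∈ J0, ψ (MvPolynomial.X (b, lb b))) * ψ g ≠ 0 := by
    rw [← map_prod, ← map_mul]
    exact hy'
  have hyb : ∀ b ∈ J0, y (b, lb b) ≠ 0 := by
    intro b hb
    have h1 := Finset.prod_ne_zero_iff.1 (left_ne_zero_of_mul hy1) b hb
    rwa [hψX] at h1
  have hyg : ψ g ≠ 0 := right_ne_zero_of_mul hy1
  have hgψ' : ∀ (a b : ι → ℕ) (l₁ l₂ : ℕ),
      ψ ((∏ i, U i ^ a i).coeff l₁ * (∏ i, U i ^ b i).coeff l₂) =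
      (∏ i, genPoly y i ^ a i).coeff l₁ * (∏ i, genPoly y i ^ b i).coeff l₂ := by
    intro a b l₁ l₂
    rw [map_mul, coeff_mapAlgHom, coeff_mapAlgHom, map_prod, map_prod]
    simp only [map_pow, ψ, hmapk]
  refine ⟨fun i => genPoly y i, fun f => ?_, ⟨J0, hJ0, fun i hi h0 => hyb i hi ?_⟩,
    ⟨m, m', hmm, fun h0 => hyg ?_, fun c hc => hyg ?_⟩⟩
  · -- the equations
    have h1 : MvPolynomial.aeval (fun i => genPoly y i) (F f) =
        Polynomial.mapAlgHom ψ (MvPolynomial.aeval U (F f)) := by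
      rw [MvPolynomial.comp_aeval_apply]
      refine congrArg (fun z => MvPolynomial.aeval z (F f)) (funext fun i => ?_)
      exact (hmapk y i).symm
    rw [h1]
    refine Polynomial.ext fun m => ?_
    rw [← coeff_mapAlgHom, Polynomial.coeff_zero]
    refine hyI _ ?_
    show φ _ = 0
    rw [coeff_mapAlgHom, MvPolynomial.comp_aeval_apply]
    have h2 : (fun i => Polynomial.mapAlgHom φ (U i)) = P := funext fun i => hmapx i
    have h3 : MvPolynomial.aeval (fun i => Polynomial.mapAlgHom φ (U i)) (F f) = 0 := by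
      rw [h2]
      exact hP f
    rw [h3, Polynomial.coeff_zero]
  · rw [← genPoly_coeff y i (lb i)]
    show (genPoly y i).coeff _ = 0
    rw [h0, Polynomial.coeff_zero]
  · show ψ (_ * _ - _ * _) = 0
    rw [map_sub, hgψ', hgψ']
    have hc' : ∏ i, genPoly y i ^ m' i = 0 := h0
    rw [hc', Polynomial.coeff_zero, Polynomial.coeff_zero, mul_zero, mul_zero, sub_zero]
  · show ψ (_ * _ - _ * _) = 0
    rw [map_sub, hgψ', hgψ']
    have hc' : ∏ i, genPoly y i ^ m i = C c * ∏ i, genPoly y i ^ m' i := hc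
    rw [hc', Polynomial.coeff_C_mul, Polynomial.coeff_C_mul]
    ring

end Pool.Agent.Lib.MP_1e3e9c_ag.TV
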