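import Mathlib

/-! # Gauss: the Gauss norm of polynomials for an arbitrary valuation ring

JOB Gauss (90 lines).  `gn V p = sup of the valuations of the coefficients` (defined below).  `gn_mul`: Gauss lemma: write
`p = C a * map p0`, `q = C b * map q0` with `p0 q0 : V[X]` having a coefficient that is a unit of `V` (`a` a coefficient of
`p` with the largest valuation).  The reductions of `p0` and `q0` in `κ[X]` (`κ = IsLocalRing.ResidueField V`) are not zero, hence
that of `p0 * q0` is not zero: `p0 * q0` has coefficients in `V` and one of them is a unit, so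
`gn (p * q) = |a| |b|`.  (Or directly: take the smallest indices where the maximum is attained.) -/

set_option autoImplicit false

namespace Pool.Agent.Lib.MP_1e3e9c_ag.TV

open Polynomial

/-- the Gauss norm -/
noncomputable def gn {L : Type*} [Field L] (V : ValuationSubring L) (p : L[X]) : V.ValueGroup :=
  p.support.sup (fun l => V.valuation (p.coeff l))

theorem le_gn {L : Type*} [Field L] (V : ValuationSubring L) (p : L[X]) (l : ℕ) :
    V.valuation (p.coeff l) ≤ gn V p := by
  by_cases h : l ∈ p.support
  · exact Finset.le_sup (f := fun l => V.valuation (p.coeff l)) h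
  · rw [notMem_support_iff] at h
    rw [h, map_zero]
    exact zero_le

theorem gn_le {L : Type*} [Field L] (V : ValuationSubring L) (p : L[X]) (a : V.ValueGroup)
    (h : ∀ l, V.valuation (p.coeff l) ≤ a) : gn V p ≤ a :=
  Finset.sup_le fun l _ => h l

theorem Gauss_zero {L : Type*} [Field L] (V : ValuationSubring L) : gn V (0 : L[X]) = 0 := by
  refine le_antisymm (gn_le V _ _ fun l => ?_) zero_le
  rw [coeff_zero, map_zero]

theorem gn_attained {L : Type*} [Field L] (V : ValuationSubring L) (p : L[X]) :
    ∃ l, V.valuation (p.coeff l) = gn V p := by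
  rcases eq_or_ne p 0 with rfl | hp
  · exact ⟨0, by rw [coeff_zero, map_zero, Gauss_zero]⟩
  · obtain ⟨l, _, hl⟩ := Finset.exists_mem_eq_sup p.support (support_nonempty.2 hp)
      (fun l => V.valuation (p.coeff l))
    exact ⟨l, hl.symm⟩

theorem gn_eq_zero {L : Type*} [Field L] (V : ValuationSubring L) (p : L[X]) :
    gn V p = 0 ↔ p = 0 := by
  refine ⟨fun h => ?_, fun h => by rw [h, Gauss_zero]⟩
  ext l
  have h1 := le_gn V p l
  rw [h] at h1
  rw [coeff_zero]
  exact (V.valuation.zero_iff).1 (le_antisymm h1 zero_le)

theorem gn_C {L : Type*} [Field L] (V : ValuationSubring L) (a : L) : gn V (C a) = V.valuation a := by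
  refine le_antisymm (gn_le V _ _ fun l => ?_) ?_
  · rw [coeff_C]
    split_ifs
    · exact le_rfl
    · rw [map_zero]
      exact zero_le
  · have h := le_gn V (C a) 0
    rw [coeff_C_zero] at h
    exact h

theorem gn_mul {L : Type*} [Field L] (V : ValuationSubring L) (p q : L[X]) :
    gn V (p * q) = gn V p * gn V q := by
  classical
  refine le_antisymm ?_ ?_
  · refine gn_le V _ _ fun l => ?_
    rw [coeff_mul]
    refine V.valuation.map_sum_le fun x _ => ?_
    rw [map_mul]
    exact mul_le_mul' (le_gn V p _) (le_gn V q _)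
  · rcases eq_or_ne p 0 with rfl | hp
    · rw [Gauss_zero, zero_mul]
      exact zero_le
    rcases eq_or_ne q 0 with rfl | hq
    · rw [Gauss_zero, mul_zero]
      exact zero_le
    have hA : gn V p ≠ 0 := fun h => hp ((gn_eq_zero V p).1 h)
    have hB : gn V q ≠ 0 := fun h => hq ((gn_eq_zero V q).1 h)
    obtain ⟨i0, hi0, hi⟩ : ∃ i0, V.valuation (p.coeff i0) = gn V p ∧
        ∀ i < i0, V.valuation (p.coeff i) < gn V p :=
      ⟨Nat.find (gn_attained V p), Nat.find_spec (gn_attained V p), fun i h =>
        lt_of_le_of_ne (le_gn V p i) (Nat.find_min (gn_attained V p) h)⟩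
    obtain ⟨j0, hj0, hj⟩ : ∃ j0, V.valuation (q.coeff j0) = gn V q ∧
        ∀ j < j0, V.valuation (q.coeff j) < gn V q :=
      ⟨Nat.find (gn_attained V q), Nat.find_spec (gn_attained V q), fun i h =>
        lt_of_le_of_ne (le_gn V q i) (Nat.find_min (gn_attained V q) h)⟩
    have key : V.valuation ((p * q).coeff (i0 + j0)) = gn V p * gn V q := by
      have hmem : (i0, j0) ∈ Finset.HasAntidiagonal.antidiagonal (i0 + j0) := Finset.HasAntidiagonal.mem_antidiagonal.2 rfl
      rw [coeff_mul, ← Finset.add_sum_erase _ _ hmem]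
      have h1 : V.valuation (p.coeff i0 * q.coeff j0) = gn V p * gn V q := by
        rw [map_mul, hi0, hj0]
      have h2 : V.valuation (∑ x ∈ (Finset.HasAntidiagonal.antidiagonal (i0 + j0)).erase (i0, j0),
          p.coeff x.1 * q.coeff x.2) < gn V p * gn V q := by
        refine V.valuation.map_sum_lt (mul_ne_zero hA hB) fun x hx => ?_
        obtain ⟨hne, hx⟩ := Finset.mem_erase.1 hx
        rw [Finset.HasAntidiagonal.mem_antidiagonal] at hx
        rw [map_mul]
        rcases lt_trichotomy x.1 i0 with h | h | h
        · exact mul_lt_mul_of_lt_of_le_of_nonneg_of_pos (hi _ h) (le_gn V q _) zero_le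
            (zero_lt_iff.2 hB)
        · exact absurd (Prod.ext h (by dsimp only; omega)) hne
        · have h3 : x.2 < j0 := by omega
          exact mul_lt_mul_of_le_of_lt_of_nonneg_of_pos (le_gn V p _) (hj _ h3) zero_le
            (zero_lt_iff.2 hA)
      rw [← h1] at h2
      rw [V.valuation.map_add_eq_of_lt_left h2, h1]
    rw [← key]
    exact le_gn V _ _

theorem gn_pow {L : Type*} [Field L] (V : ValuationSubring L) (p : L[X]) (n : ℕ) :
    gn V (p ^ n) = gn V p ^ n := by
  induction n with
  | zero => rw [pow_zero, pow_zero, ← C_1, gn_C, map_one]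
  | succ n ih => rw [pow_succ, pow_succ, gn_mul, ih]

theorem gn_prod {L : Type*} [Field L] (V : ValuationSubring L) {α : Type*} (s : Finset α)
    (p : α → L[X]) : gn V (∏ i ∈ s, p i) = ∏ i ∈ s, gn V (p i) := by
  classical
  induction s using Finset.induction_on with
  | empty => rw [Finset.prod_empty, Finset.prod_empty, ← C_1, gn_C, map_one]
  | insert a s ha ih => rw [Finset.prod_insert ha, Finset.prod_insert ha, gn_mul, ih]

end Pool.Agent.Lib.MP_1e3e9c_ag.TV
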