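import Pool.Agent.Lib.MP_1e3e9c_ag.RC.Fix

/-! # Gen: deformation of the line of the special member over the power series ring (general form)

JOB Gen (100 lines).  This is an edit of the complete file `Pool/Agent/Lib/MP_1e3e9c_ag/RC/Gen.lean` (theorem `generic` and its
private lemmas; on the team main, or in the archive of this stream): there the point `pt g` has fixed coordinates `1`, `X` and
the variable ones `g m`; here the fixed coordinates are arbitrary polynomials `e i`.  The proof is the same:
index type `T = Σ j : Fin c, Fin (d j + 1)`; `δ t` the solution of the linear problem `hs` for the right side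
`fun j => if j = t.1 then X ^ t.2 else 0`; `fix` applied to `G t = - coeff (aeval (pt y e gU) (F t.1)) t.2`, where
`gU m = ∑ t, C (MvPolynomial.X t) * (δ t m).map _`; `g m = ∑ t, C (V t) * (δ t m).map _` (degree `≤ b m`); then compare the
coefficients of `aeval (pt y e g) (F0 j)` (by `hF0` and the equations for `δ`) and of `X * aeval (pt y e g) (F j)` (at `l > d j`
by `hF`). -/

set_option autoImplicit false

namespace Pool.Agent.Lib.MP_1e3e9c_ag.TV

open Polynomial

/-- the point with the coordinates `g m` at `y m` and `e i` at the other `i` -/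
noncomputable def pt {k ι : Type*} [Field k] {r : ℕ} (y : Fin r → ι) (e : ι → k[X])
    {R : Type*} [CommRing R] [Algebra k R] (g : Fin r → R[X]) : ι → R[X] :=
  open Classical in fun i => if h : ∃ m, y m = i then g h.choose else (e i).map (algebraMap k R)

private theorem gen_elim {k R T : Type*} [Field k] [CommRing R] [Fintype T] (φ : k →+* R)
    (o : Option ℕ) (V : T → R) (δ : T → k[X]) :
    o.elim 0 (fun p => X ^ p * ∑ t, C (V t) * (δ t).map φ) =
      ∑ t, C (V t) * (o.elim 0 (fun p => X ^ p * δ t)).map φ := by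
  cases o with
  | none => simp
  | some p =>
    simp only [Option.elim_some]
    rw [Finset.mul_sum]
    refine Finset.sum_congr rfl fun t _ => ?_
    rw [Polynomial.map_mul, Polynomial.map_pow, Polynomial.map_X]
    ring

private theorem gen_coeff {R : Type*} [CommRing R] {c : ℕ} (d : Fin c → ℕ)
    (V : (Σ j : Fin c, Fin (d j + 1)) → R) (j : Fin c) (l : ℕ) :
    (∑ t, C (V t) * (if j = t.1 then X ^ (t.2 : ℕ) else 0)).coeff l =
      if h : l < d j + 1 then V ⟨j, ⟨l, h⟩⟩ else 0 := by
  classical
  rw [Polynomial.finsetSum_coeff]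
  have h1 : ∀ t : (Σ j : Fin c, Fin (d j + 1)),
      (C (V t) * (if j = t.1 then (X : R[X]) ^ (t.2 : ℕ) else 0)).coeff l =
      if j = t.1 ∧ l = (t.2 : ℕ) then V t else 0 := by
    intro t
    rw [Polynomial.coeff_C_mul]
    by_cases h2 : j = t.1
    · rw [if_pos h2, Polynomial.coeff_X_pow]
      by_cases h3 : l = (t.2 : ℕ)
      · rw [if_pos h3, if_pos ⟨h2, h3⟩, mul_one]
      · rw [if_neg h3, if_neg (fun h => h3 h.2), mul_zero]
    · rw [if_neg h2, if_neg (fun h => h2 h.1), Polynomial.coeff_zero, mul_zero]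
  rw [Finset.sum_congr rfl fun t _ => h1 t]
  split_ifs with h
  · rw [Finset.sum_eq_single (⟨j, ⟨l, h⟩⟩ : Σ j : Fin c, Fin (d j + 1))]
    · rw [if_pos ⟨rfl, rfl⟩]
    · rintro ⟨j', l'⟩ _ hne
      refine if_neg fun h2 => hne ?_
      obtain ⟨h3, h4⟩ := h2
      dsimp only at h3 h4
      subst h3
      congr 1
      exact Fin.ext h4.symm
    · intro h2
      exact absurd (Finset.mem_univ _) h2
  · refine Finset.sum_eq_zero fun t _ => if_neg fun h2 => h ?_
    rw [h2.2, h2.1]
    exact t.2.2

/-- Change of the coefficients at a point. -/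
private theorem gen_map {k R ι T : Type*} [Field k] [CommRing R] [Algebra k R] [Fintype T]
    {r : ℕ} (y : Fin r → ι) (e : ι → k[X]) (V : T → R) (δ : T → Fin r → k[X]) :
    (fun i => (Polynomial.mapAlgHom (MvPolynomial.aeval V : MvPolynomial T k →ₐ[k] R)
      (pt y e (fun m => ∑ t, C (MvPolynomial.X t) *
        (δ t m).map (algebraMap k (MvPolynomial T k))) i))) =
      pt y e fun m => ∑ t, C (V t) * (δ t m).map (algebraMap k R) := by
  funext i
  have h1 : ((MvPolynomial.aeval V : MvPolynomial T k →ₐ[k] R) : MvPolynomial T k →+* R).comp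
      (algebraMap k (MvPolynomial T k)) = algebraMap k R := AlgHom.comp_algebraMap _
  unfold pt
  by_cases h : ∃ m, y m = i
  · rw [dif_pos h, dif_pos h, map_sum]
    refine Finset.sum_congr rfl fun t _ => ?_
    rw [map_mul, Polynomial.coe_mapAlgHom, Polynomial.map_C, Polynomial.map_map, h1]
    congr 2
    exact MvPolynomial.aeval_X V t
  · rw [dif_neg h, dif_neg h, Polynomial.coe_mapAlgHom, Polynomial.map_map, h1]

private theorem gen_coeff_aeval {k R ι T : Type*} [Field k] [CommRing R] [Algebra k R] [Fintype T]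
    {r : ℕ} (y : Fin r → ι) (e : ι → k[X]) (V : T → R) (δ : T → Fin r → k[X])
    (F : MvPolynomial ι k) (l : ℕ) :
    (MvPolynomial.aeval (pt y e fun m => ∑ t, C (V t) * (δ t m).map (algebraMap k R))
      F).coeff l =
    MvPolynomial.aeval V ((MvPolynomial.aeval (pt y e (fun m => ∑ t, C (MvPolynomial.X t) *
        (δ t m).map (algebraMap k (MvPolynomial T k)))) F).coeff l) := by
  rw [← gen_map, ← MvPolynomial.comp_aeval_apply, Polynomial.coe_mapAlgHom, Polynomial.coeff_map]
  rfl

theorem generic {k ι : Type*} [Field k] (r c : ℕ) (y : Fin r → ι)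
    (e : ι → k[X]) (b : Fin r → ℕ) (d : Fin c → ℕ) (s : Fin r → Fin c → Option ℕ)
    (hs : ∀ g : Fin c → k[X], (∀ j, (g j).natDegree ≤ d j) →
      ∃ δ : Fin r → k[X], (∀ m, (δ m).natDegree ≤ b m) ∧
        ∀ j, ∑ m, (s m j).elim 0 (fun p => X ^ p * δ m) = g j)
    (F F0 : Fin c → MvPolynomial ι k)
    (hF0 : ∀ (g : Fin r → (PowerSeries k)[X]) (j : Fin c),
      MvPolynomial.aeval (pt y e g) (F0 j) = ∑ m, (s m j).elim 0 (fun p => X ^ p * g m))
    (hF : ∀ g : Fin r → (PowerSeries k)[X], (∀ m, (g m).natDegree ≤ b m) →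
      ∀ (j : Fin c) (l : ℕ), d j < l → (MvPolynomial.aeval (pt y e g) (F j)).coeff l = 0) :
    ∃ g : Fin r → (PowerSeries k)[X], ∀ j,
      MvPolynomial.aeval (pt y e g) (F0 j) +
        C PowerSeries.X * MvPolynomial.aeval (pt y e g) (F j) = 0 := by
  classical
  -- the solutions of the linear problem
  have hδ : ∀ t : (Σ j : Fin c, Fin (d j + 1)), ∃ δ : Fin r → k[X],
      (∀ m, (δ m).natDegree ≤ b m) ∧
      ∀ j, ∑ m, (s m j).elim 0 (fun p => X ^ p * δ m) =
        if j = t.1 then X ^ (t.2 : ℕ) else 0 := by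
    intro t
    refine hs (fun j => if j = t.1 then X ^ (t.2 : ℕ) else 0) fun j => ?_
    split_ifs with h
    · rw [natDegree_X_pow, h]
      have := t.2.2
      omega
    · rw [natDegree_zero]
      exact Nat.zero_le _
  choose δ hδ1 hδ2 using hδ
  obtain ⟨V, hV⟩ := RC.fix (k := k) (T := Σ j : Fin c, Fin (d j + 1))
    (fun t => -(MvPolynomial.aeval (pt y e (fun m => ∑ t, C (MvPolynomial.X t) *
        (δ t m).map (algebraMap k (MvPolynomial (Σ j : Fin c, Fin (d j + 1)) k))))
          (F t.1)).coeff (t.2 : ℕ))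
  refine ⟨fun m => ∑ t, C (V t) * (δ t m).map (algebraMap k (PowerSeries k)), fun j => ?_⟩
  have e3 := hF (fun m => ∑ t, C (V t) * (δ t m).map (algebraMap k (PowerSeries k))) (by
    intro m
    refine natDegree_sum_le_of_forall_le _ _ fun t _ => ?_
    exact (natDegree_C_mul_le _ _).trans (natDegree_map_le.trans (hδ1 t m))) j
  have e4 : MvPolynomial.aeval (pt y e
      (fun m => ∑ t, C (V t) * (δ t m).map (algebraMap k (PowerSeries k)))) (F0 j) =
      ∑ t, C (V t) * (if j = t.1 then X ^ (t.2 : ℕ) else 0) := by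
    rw [hF0]
    rw [Finset.sum_congr rfl fun m _ => gen_elim (algebraMap k (PowerSeries k)) (s m j) V
      (fun t => δ t m), Finset.sum_comm]
    refine Finset.sum_congr rfl fun t _ => ?_
    rw [← Finset.mul_sum, ← Polynomial.map_sum, hδ2 t j]
    congr 1
    split_ifs
    · rw [Polynomial.map_pow, Polynomial.map_X]
    · exact Polynomial.map_zero _
  ext1 l
  rw [Polynomial.coeff_add, Polynomial.coeff_C_mul, Polynomial.coeff_zero, e4, gen_coeff d]
  split_ifs with h
  · have e5 := gen_coeff_aeval (R := PowerSeries k) y e V δ (F j) l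
    rw [e5, hV ⟨j, ⟨l, h⟩⟩, map_neg]
    ring
  · rw [e3 l (by omega), mul_zero, add_zero]

end Pool.Agent.Lib.MP_1e3e9c_ag.TV
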