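import Pool.Agent.Lib.MP_1e3e9c_ag.TV.Chart

/-! # Kleiman: a class that is positive on the torus invariant curves is ample

JOB Kleiman (90 lines; uses Chart).  Let `A` be ample and suppose that `E` is not ample.  Among the finitely many pairs
`(J, ρ)`, `J ∈ charts`, `ρ ∈ J`, choose one for which the rational number `co J E ρ / co J A ρ` is minimal; it is `≤ 0`
since `E` is not ample (`ample_iff`).  Write `a = co J A ρ > 0`, `x = co J E ρ ≤ 0`, and `g = a • E - x • A` (integers).  Then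
`co J' g ρ' = a * co J' E ρ' - x * co J' A ρ' ≥ 0` for all `J' ∈ charts`, `ρ' ∈ J'`, and `co J g ρ = 0`.
For every `i ∉ J` let `(J, ρ*, i)` be a wall (`T.wall`).  Put `y = co J g ρ* ≥ 0`.  By hypothesis `0 < co J E ρ*`, and
`- x * co J A ρ* ≥ 0`, so `y = a * co J E ρ* - x * co J A ρ* > 0`; in particular `ρ* ≠ ρ`.  By `co_wall`
`0 ≤ co J' g ρ = co J g ρ - y * co J (deg i) ρ = - y * co J (deg i) ρ`.  So `co J (deg i) ρ ≤ 0` for ALL `i ∉ J`.
By `T.divisor` there is a chart `J1` with `ρ ∉ J1`.  Apply `co J · ρ` to `A = ∑_{i ∈ J1} (co J1 A i) • deg i`: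
`a = ∑_{i ∈ J1} co J1 A i * co J (deg i) ρ`, where `co J (deg i) ρ = 0` for `i ∈ J` (`i ≠ ρ`, `co_deg`) and `≤ 0` for
`i ∉ J`, and `co J1 A i > 0`.  So `a ≤ 0`: contradiction. -/

set_option autoImplicit false

namespace Pool.Agent.Lib.MP_1e3e9c_ag.TV

variable {ι G : Type*} [Fintype ι] [DecidableEq ι] [AddCommGroup G] (T : ToricData ι G)

private theorem Kleiman_zsmul {J : Finset ι} (h : J ∈ T.charts) (n : ℤ) (g : G) :
    T.co J (n • g) = n • T.co J g := by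
  have h1 := co_isCo T h g
  refine co_eq T h ⟨fun i hi => ?_, ?_⟩
  · rw [Pi.smul_apply, h1.1 i hi, smul_zero]
  · have h2 : ∑ i, (n • T.co J g) i • T.deg i = n • ∑ i, T.co J g i • T.deg i := by
      rw [Finset.smul_sum]
      refine Finset.sum_congr rfl fun i _ => ?_
      rw [Pi.smul_apply, smul_eq_mul, mul_smul]
    rw [h2, h1.2]

theorem kleiman (E : G) (hE : ∀ (J : Finset ι) (ρ i : ι), T.IsWall J ρ i → 0 < T.co J E ρ) :
    IsAmple T.deg T.charts E := by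
  classical
  obtain ⟨A, hA⟩ := T.ample
  have hA' := (ample_iff T A).1 hA
  rw [ample_iff T E]
  by_contra hcon
  push Not at hcon
  obtain ⟨J₀, hJ₀, i₀, hi₀, hneg⟩ := hcon
  let P : Finset (Finset ι × ι) := (T.charts ×ˢ Finset.univ).filter fun p => p.2 ∈ p.1
  have hP : ∀ p : Finset ι × ι, p ∈ P ↔ (p.1 ∈ T.charts ∧ p.2 ∈ p.1) := by
    intro p
    simp only [P, Finset.mem_filter, Finset.mem_product, Finset.mem_univ, and_true]
  have hne : P.Nonempty := ⟨(J₀, i₀), (hP _).2 ⟨hJ₀, hi₀⟩⟩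
  obtain ⟨⟨J, ρ⟩, hJρ, hmin⟩ := Finset.exists_min_image P
    (fun p => (T.co p.1 E p.2 : ℚ) / (T.co p.1 A p.2 : ℚ)) hne
  obtain ⟨hJ, hρ⟩ := (hP _).1 hJρ
  simp only at hJ hρ hmin
  have ha : 0 < T.co J A ρ := hA' J hJ ρ hρ
  have haq : (0 : ℚ) < (T.co J A ρ : ℚ) := by exact_mod_cast ha
  -- the minimal property
  have hge : ∀ J' ∈ T.charts, ∀ ρ' ∈ J',
      0 ≤ T.co J A ρ * T.co J' E ρ' - T.co J E ρ * T.co J' A ρ' := by
    intro J' hJ' ρ' hρ'
    have h1 := hmin (J', ρ') ((hP _).2 ⟨hJ', hρ'⟩)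
    simp only at h1
    have h2 : (0 : ℚ) < (T.co J' A ρ' : ℚ) := by exact_mod_cast hA' J' hJ' ρ' hρ'
    rw [div_le_div_iff₀ haq h2] at h1
    have h3 : T.co J E ρ * T.co J' A ρ' ≤ T.co J' E ρ' * T.co J A ρ := by exact_mod_cast h1
    linarith [mul_comm (T.co J' E ρ') (T.co J A ρ)]
  have hx : T.co J E ρ ≤ 0 := by
    have h1 := hge J₀ hJ₀ i₀ hi₀
    have h2 : 0 < T.co J₀ A i₀ := hA' J₀ hJ₀ i₀ hi₀
    by_contra h3
    push Not at h3
    have h4 : T.co J A ρ * T.co J₀ E i₀ ≤ 0 := mul_nonpos_of_nonneg_of_nonpos ha.le hneg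
    have h5 : 0 < T.co J E ρ * T.co J₀ A i₀ := mul_pos h3 h2
    linarith
  have hnp : ∀ i, i ∉ J → T.co J (T.deg i) ρ ≤ 0 := by
    intro i hi
    obtain ⟨ρ', hρ', hch⟩ := T.wall J hJ i hi
    have hW : T.IsWall J ρ' i := ⟨hJ, hρ', hi, hch⟩
    have hEp : 0 < T.co J E ρ' := hE J ρ' i hW
    have hneρ : ρ ≠ ρ' := by
      rintro rfl
      exact absurd hEp (not_lt.2 hx)
    have hy : 0 < T.co J A ρ * T.co J E ρ' - T.co J E ρ * T.co J A ρ' := by
      have h1 := mul_pos ha hEp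
      have h2 : T.co J E ρ * T.co J A ρ' ≤ 0 :=
        mul_nonpos_of_nonpos_of_nonneg hx (hA' J hJ ρ' hρ').le
      linarith
    have hmem : ρ ∈ insert i (J.erase ρ') :=
      Finset.mem_insert_of_mem (Finset.mem_erase.2 ⟨hneρ, hρ⟩)
    have h1 := hge _ hch ρ hmem
    rw [co_wall T hW E hρ hneρ, co_wall T hW A hρ hneρ] at h1
    have h2 : 0 ≤ -((T.co J A ρ * T.co J E ρ' - T.co J E ρ * T.co J A ρ') *
        T.co J (T.deg i) ρ) := by
      linarith [mul_comm (T.co J A ρ) (T.co J E ρ)]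
    by_contra h3
    push Not at h3
    have h4 := mul_pos hy h3
    linarith
  obtain ⟨J₁, hJ₁, hρ₁⟩ := T.divisor ρ
  have hsum : T.co J A ρ = ∑ i, T.co J₁ A i * T.co J (T.deg i) ρ := by
    have h1 := (co_isCo T hJ₁ A).2
    have h2 : T.co J A = T.co J (∑ i, T.co J₁ A i • T.deg i) := by rw [h1]
    rw [h2, co_sum T hJ, Finset.sum_apply]
    refine Finset.sum_congr rfl fun i _ => ?_
    rw [Kleiman_zsmul T hJ, Pi.smul_apply, smul_eq_mul]
  have hle : ∑ i, T.co J₁ A i * T.co J (T.deg i) ρ ≤ 0 := by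
    refine Finset.sum_nonpos fun i _ => ?_
    by_cases hi1 : i ∈ J₁
    · have h0 : 0 < T.co J₁ A i := hA' J₁ hJ₁ i hi1
      have hiρ : ρ ≠ i := by
        rintro rfl
        exact hρ₁ hi1
      by_cases hiJ : i ∈ J
      · rw [co_deg T hJ hiJ, Pi.single_eq_of_ne hiρ, mul_zero]
      · exact mul_nonpos_of_nonneg_of_nonpos h0.le (hnp i hiJ)
    · rw [(co_isCo T hJ₁ A).1 i hi1, zero_mul]
  linarith

end Pool.Agent.Lib.MP_1e3e9c_ag.TV
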