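import Pool.Agent.Lib.MP_1e3e9c_ag.TV.Spec
import Pool.Agent.Lib.MP_1e3e9c_ag.TV.Deg
import Pool.Agent.Lib.MP_1e3e9c_ag.RC.Tile

/-! # Line: the torus invariant curve of the special member deforms (toric case)

JOB Line (120 lines; uses Chart, Spec, Deg, Gen and the complete `RC.tile`).  `φ g = co J g ρ` is an additive map `G →+ ℤ`
(`co_add`, `co_zero`; build it with `AddMonoidHom.mk'`), the intersection number with the curve.  Let
`S = {i | i ∉ J, i ≠ i', 0 ≤ φ (deg i)}`, `r = card S`, `y : Fin r → ι` the enumeration of `S` (e.g. `S.orderIsoOfFin` needs an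
order on `ι`; use `S.equivFin.symm`), `b m = (φ (deg (y m))).toNat`, `d j = (φ (D j)).toNat` (`φ (D j) > 0` as `D j` is ample).
`tile` needs `b m ≤ d j` (`row`) and the count `∑ (d j + 1) ≤ ∑ (b m + 1)`:
`∑_j (φ (D j) + 1) ≤ ∑_{i ∈ S} (φ (deg i) + 1)`.  By `hcount`, `co_add`, `co_neg`, `co_sum` and `T.K = - ∑ deg i`:
`∑_j φ (D j) - ∑_i φ (deg i) ≤ card ι - card J - c - 3`.  Here `φ (deg i) = 0` for `i ∈ J`, `i ≠ ρ`, `φ (deg ρ) = 1` (`co_deg`),
`φ (deg i') = 1` (`wall_one`).  With `R = {i | i ∉ J, i ≠ i'}`: `card R = card ι - card J - 1` and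
`∑_i φ (deg i) = 2 + ∑_{i ∈ R} φ (deg i)`, so `∑_j (φ (D j) + 1) ≤ ∑_{i ∈ R} (φ (deg i) + 1) ≤ ∑_{i ∈ S} (φ (deg i) + 1)`
(the omitted terms have `φ (deg i) ≤ -1`).
Let `e i = 1` for `i ∈ J`, `e i' = X`, `e i = 0` otherwise.  `special` gives `F0` (its `hs`: `tile` gives
`p + b m ≤ d j`).  `generic` gives `g`: its hypothesis `hF` is `coeff_aeval` with `φ` (every coordinate `i` of `pt y e g` is zero or
has degree `≤ φ (deg i)`: `1` for `i ∈ J` (`0 ≤ 0`, `0 ≤ 1`), `X` for `i'`, `g m` for `y m`, `0` for the others).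
The point is `P = pt y e g`. -/

set_option autoImplicit false

namespace Pool.Agent.Lib.MP_1e3e9c_ag.TV

open Polynomial

theorem line {k ι G : Type*} [Field k] [Fintype ι] [DecidableEq ι] [AddCommGroup G]
    (T : ToricData ι G) (J : Finset ι) (ρ i' : ι) (hW : T.IsWall J ρ i') (c : ℕ) (D : Fin c → G)
    (hD : ∀ j, IsAmple T.deg T.charts (D j))
    (F : Fin c → MvPolynomial ι k) (hF : ∀ j, (F j).IsWeightedHomogeneous T.deg (D j))
    (hcount : T.co J (T.K + ∑ j, D j) ρ ≤ (Fintype.card ι : ℤ) - J.card - c - 3) :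
    ∃ F0 : Fin c → MvPolynomial ι k, (∀ j, (F0 j).IsWeightedHomogeneous T.deg (D j)) ∧
      ∃ P : ι → (PowerSeries k)[X], (∀ i ∈ J, P i = 1) ∧ P i' = X ∧
        ∀ j, MvPolynomial.aeval P (F0 j) + C PowerSeries.X * MvPolynomial.aeval P (F j) = 0 := by
  classical
  obtain ⟨hJ, hρ, hi', hJ'⟩ := id hW
  let φ : G →+ ℤ := AddMonoidHom.mk' (fun g => T.co J g ρ) (by
    intro a b
    show T.co J (a + b) ρ = T.co J a ρ + T.co J b ρ
    rw [co_add T hJ]
    rfl)
  have hφ : ∀ g, φ g = T.co J g ρ := fun g => rfl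
  have hDpos : ∀ j, 0 < φ (D j) := fun j => (ample_iff T (D j)).1 (hD j) J hJ ρ hρ
  obtain ⟨S, hS⟩ : ∃ S : Finset ι, ∀ i, i ∈ S ↔ (i ∉ J ∧ i ≠ i') ∧ 0 ≤ φ (T.deg i) :=
    ⟨Finset.univ.filter fun i => (i ∉ J ∧ i ≠ i') ∧ 0 ≤ φ (T.deg i), fun i => by simp⟩
  obtain ⟨R, hR⟩ : ∃ R : Finset ι, R = (Finset.univ \ J).erase i' := ⟨_, rfl⟩
  have hRm : ∀ i, i ∈ R ↔ i ∉ J ∧ i ≠ i' := by
    intro i
    rw [hR, Finset.mem_erase, Finset.mem_sdiff]
    constructor
    · rintro ⟨h1, _, h2⟩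
      exact ⟨h2, h1⟩
    · rintro ⟨h1, h2⟩
      exact ⟨h2, Finset.mem_univ i, h1⟩
  let y : Fin S.card → ι := fun m => (S.equivFin.symm m : ι)
  have hy : Function.Injective y := Subtype.val_injective.comp S.equivFin.symm.injective
  have hyS : ∀ m, y m ∈ S := fun m => (S.equivFin.symm m).2
  have hyJ : ∀ m, y m ∉ J := fun m => ((hS _).1 (hyS m)).1.1
  have hyi : ∀ m, y m ≠ i' := fun m => ((hS _).1 (hyS m)).1.2
  have hy0 : ∀ m, 0 ≤ φ (T.deg (y m)) := fun m => ((hS _).1 (hyS m)).2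
  let b : Fin S.card → ℕ := fun m => (φ (T.deg (y m))).toNat
  let d : Fin c → ℕ := fun j => (φ (D j)).toNat
  have hb : ∀ m, (b m : ℤ) = φ (T.deg (y m)) := fun m => Int.toNat_of_nonneg (hy0 m)
  have hd : ∀ j, (d j : ℤ) = φ (D j) := fun j => Int.toNat_of_nonneg (hDpos j).le
  have hsumb : ∑ m, ((b m : ℤ) + 1) = ∑ i ∈ S, (φ (T.deg i) + 1) := by
    rw [← Finset.sum_coe_sort S (fun i => φ (T.deg i) + 1),
      ← Equiv.sum_comp S.equivFin.symm (fun i : S => φ (T.deg i) + 1)]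
    exact Finset.sum_congr rfl fun m _ => by rw [hb]
  have hSR : ∑ i ∈ R, (φ (T.deg i) + 1) ≤ ∑ i ∈ S, (φ (T.deg i) + 1) := by
    have hsub : S ⊆ R := fun i hi => (hRm i).2 ((hS i).1 hi).1
    rw [← Finset.sum_sdiff hsub]
    have h1 : ∑ i ∈ R \ S, (φ (T.deg i) + 1) ≤ 0 := by
      refine Finset.sum_nonpos fun i hi => ?_
      rw [Finset.mem_sdiff, hRm, hS] at hi
      have h2 : ¬ 0 ≤ φ (T.deg i) := fun h => hi.2 ⟨hi.1, h⟩
      omega
    omega
  have hJsum : ∑ i ∈ J, φ (T.deg i) = 1 := by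
    rw [Finset.sum_eq_single ρ]
    · rw [hφ, co_deg T hJ hρ, Pi.single_eq_same]
    · intro i hi hne
      rw [hφ, co_deg T hJ hi, Pi.single_eq_of_ne (Ne.symm hne)]
    · intro h
      exact absurd hρ h
  have hi'1 : φ (T.deg i') = 1 := wall_one T hW
  have hi'm : i' ∈ Finset.univ \ J := Finset.mem_sdiff.2 ⟨Finset.mem_univ _, hi'⟩
  have hall : ∑ i, φ (T.deg i) = 2 + ∑ i ∈ R, φ (T.deg i) := by
    rw [← Finset.sum_sdiff (Finset.subset_univ J), hJsum, hR,
      ← Finset.add_sum_erase (Finset.univ \ J) (fun i => φ (T.deg i)) hi'm, hi'1]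
    ring
  have hcardR : (R.card : ℤ) = Fintype.card ι - J.card - 1 := by
    have h1 : R.card + 1 = (Finset.univ \ J).card := by
      rw [hR, Finset.card_erase_add_one hi'm]
    have h2 : (Finset.univ \ J).card + J.card = Fintype.card ι := by
      rw [Finset.card_sdiff_add_card_eq_card (Finset.subset_univ J), Finset.card_univ]
    omega
  have hK : T.co J (T.K + ∑ j, D j) ρ = - ∑ i, φ (T.deg i) + ∑ j, φ (D j) := by
    rw [← hφ, map_add, ToricData.K, map_neg, map_sum, map_sum]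
  rw [hK] at hcount
  have hcountN : ∑ j, (d j + 1) ≤ ∑ m, (b m + 1) := by
    have h1 : ∑ j, ((d j : ℤ) + 1) ≤ ∑ m, ((b m : ℤ) + 1) := by
      rw [hsumb]
      refine le_trans ?_ hSR
      rw [Finset.sum_add_distrib, Finset.sum_add_distrib, Finset.sum_const, Finset.sum_const,
        Finset.card_univ, Fintype.card_fin, nsmul_eq_mul, nsmul_eq_mul, mul_one, mul_one, hcardR,
        Finset.sum_congr rfl fun j _ => hd j]
      omega
    exact_mod_cast h1
  obtain ⟨s, hs1, hs2⟩ := RC.tile (k := k) S.card c b d (fun m j _ => by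
    have h1 := row T hJ (hD j) (hyJ m) hρ
    rw [← hφ, ← hφ, ← hb, ← hd] at h1
    exact_mod_cast h1) hcountN
  let e : ι → k[X] := fun i => if i ∈ J then 1 else if i = i' then X else 0
  have heJ : ∀ i ∈ J, e i = 1 := fun i hi => if_pos hi
  have hei : e i' = X := by
    show (if i' ∈ J then (1 : k[X]) else if i' = i' then X else 0) = X
    rw [if_neg hi', if_pos rfl]
  have he0 : ∀ i, i ∉ J → i ≠ i' → e i = 0 := fun i h1 h2 => by
    show (if i ∈ J then (1 : k[X]) else if i = i' then X else 0) = 0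
    rw [if_neg h1, if_neg h2]
  obtain ⟨F0, hF0h, hF0e⟩ := special T J ρ i' hW S.card c y hy hyJ hyi e heJ hei D hD s
    (fun m j p h => by
      have h1 := (hs1 m j p h).2
      rw [← hφ, ← hφ, ← hb, ← hd]
      exact_mod_cast h1)
  obtain ⟨g, hg⟩ := generic S.card c y e b d s hs2 F F0 hF0e (fun g hgd j l hl => by
    refine coeff_aeval T.deg φ (F j) (D j) (hF j) _ (fun i => ?_) l (by
      rw [← hd]
      exact_mod_cast hl)
    by_cases hm : ∃ m, y m = i
    · obtain ⟨m, rfl⟩ := hm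
      right
      rw [pt_y y hy e g m, ← hb]
      exact_mod_cast hgd m
    · push Not at hm
      rw [pt_e y e g i hm]
      by_cases h1 : i ∈ J
      · right
        rw [heJ i h1, Polynomial.map_one, natDegree_one, hφ, co_deg T hJ h1]
        by_cases h2 : i = ρ
        · rw [h2, Pi.single_eq_same]
          norm_num
        · rw [Pi.single_eq_of_ne (Ne.symm h2)]
          norm_num
      · by_cases h2 : i = i'
        · right
          rw [h2, hei, Polynomial.map_X, hi'1]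
          exact_mod_cast natDegree_X_le
        · left
          rw [he0 i h1 h2, Polynomial.map_zero])
  refine ⟨F0, hF0h, pt y e g, fun i hi => ?_, ?_, hg⟩
  · rw [pt_e y e g i (fun m h => hyJ m (h ▸ hi)), heJ i hi, Polynomial.map_one]
  · rw [pt_e y e g i' hyi, hei, Polynomial.map_X]

end Pool.Agent.Lib.MP_1e3e9c_ag.TV
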