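import Pool.Agent.Lib.MP_1e3e9c_ag.TV.SR
import Pool.Agent.Lib.MP_1e3e9c_ag.TV.Deg
import Pool.Agent.Lib.MP_1e3e9c_ag.TV.Gauss
import Pool.Agent.Lib.MP_1e3e9c_ag.RC.Disc

/-! # Red: reduction of a curve modulo the maximal ideal of a valuation ring (toric case)

JOB Red (180 lines; uses SR, Deg, Gauss, Chart and the complete `RC.disc`; compare the complete file `RC/Red.lean`, the case of
weighted projective spaces).  `|x| = V.valuation x`, `κ = IsLocalRing.ResidueField V`, `gn = gn V` the Gauss norm.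
(A) Let `A` be ample, `f J = ∏_{i ∈ J} P i ^ (co J A i).toNat` for `J ∈ T.charts` (family indexed by `T.charts`).  For the wall
 `(J, ρ, i')`: `f J = 1`, `f J' = X ^ n`, `n = (co J' A i').toNat > 0`, `J' = insert i' (J.erase ρ)`.  Apply `RC.disc` to this family: it
 gives `z`, `ρ0 ≠ 0`, `μ ≠ 0` and `J1`, `J2`, `l`, `l'`.  Let `φ p = p.comp (C ρ0 * X + C z)`.  All `gn (φ (f J)) ≤ |μ|`, with
 equality for `J1` or `J2` (the minor has the valuation `|μ|^2`).
(B) `v i = gn (φ (P i))`; `v i ≠ 0` for `i ∈ J` (`P i = 1`).  `semistable` gives a chart `Js` with `v i ≠ 0` for `i ∈ Js` and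
 `v i ≤ ∏_{ρ' ∈ Js} v ρ' ^ co Js (deg i) ρ'` for all `i`.  Raising to the powers `co J A i ≥ 0` (`i ∈ J`) and multiplying:
 `gn (φ (f J)) = ∏_{i ∈ J} v i ^ co J A i ≤ ∏_{ρ' ∈ Js} v ρ' ^ co Js A ρ' = gn (φ (f Js))` for all `J` (`A = ∑ co J A i • deg i`, additivity of `co Js`).
 So `gn (φ (f Js)) = |μ|`.
(C) For `ρ' ∈ Js` let `κ ρ' : L` be a coefficient of `φ (P ρ')` with `|κ ρ'| = v ρ'` (`gn_attained`), `≠ 0`.  Define
 `χ g = ∏_{ρ' ∈ Js} κ ρ' ^ (- co Js g ρ')` (a monoid hom `Multiplicative G →* L`, by additivity of `co Js`) and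
 `Q i = C (χ (deg i)) * φ (P i)`.  Then `gn (Q i) ≤ 1`, `= 1` for `i ∈ Js` (`co_deg`), so `Q i = map (q i)`, `q i : V[X]`.
(D) `aeval Q (F j) + C u * aeval Q (F0 j) = 0` by `aeval_scale` (with `R = L[X]`, the hom `C ∘ χ`, both have the factor
 `C (χ (D j))`) and `φ (aeval P (F j)) = aeval (φ ∘ P) (F j)`.  `V` is a `k`-algebra by `hk`; `V[X] → L[X]` is injective, so
 `aeval q (F j) + C u * aeval q (F0 j) = 0` in `V[X]`; map to `κ[X]`, where `u ↦ 0`: `aeval q̄ (F j) = 0` (exactly as in `RC/Red.lean`).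
(E) `generic`: `q̄ i ≠ 0` for `i ∈ Js` since `gn (Q i) = 1`.  `nonconst`: let `m i = (co J1 A i).toNat` (`0` outside of `J1`), `m'` the same
 for `J2` (or the other way round); both have the degree `A`.  `∏ i, Q i ^ m i = C (χ A) * φ (f J1)`, the same for `J2`, and
 `|χ A| = |μ|⁻¹` by (B).  So the minor of the coefficients of `∏ q̄ i ^ m i` and `∏ q̄ i ^ m' i` at `l`, `l'` is the residue of a unit, hence not zero:
 the two polynomials are linearly independent over `κ`. -/

set_option autoImplicit false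

namespace Pool.Agent.Lib.MP_1e3e9c_ag.TV

open Polynomial

private theorem red_lift {L : Type*} [Field L] (V : ValuationSubring L) (Q : L[X])
    (h : ∀ l, Q.coeff l ∈ V) : ∃ q : V[X], q.map (algebraMap V L) = Q := by
  have h1 : Q ∈ lifts (algebraMap V L) := by
    rw [lifts_iff_coeff_lifts]
    intro n
    exact ⟨⟨Q.coeff n, h n⟩, rfl⟩
  exact (mem_lifts _).1 h1

private theorem red_unit {L : Type*} [Field L] (V : ValuationSubring L) (a : V)
    (h : V.valuation (a : L) = 1) : IsLocalRing.residue V a ≠ 0 := by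
  rw [IsLocalRing.residue_ne_zero_iff_isUnit, V.valuation_eq_one_iff]
  exact h

/-- the character given by its values on the basis `deg i`, `i ∈ Js` -/
private theorem red_hom {ι G M : Type*} [Fintype ι] [DecidableEq ι] [AddCommGroup G]
    [CommGroupWithZero M] (T : ToricData ι G) {Js : Finset ι} (hJs : Js ∈ T.charts) (κ : ι → M)
    (hκ : ∀ ρ ∈ Js, κ ρ ≠ 0) :
    ∃ χ : Multiplicative G →* M, ∀ g, χ (Multiplicative.ofAdd g) =
      ∏ ρ ∈ Js, κ ρ ^ (T.co Js g ρ) := by
  refine ⟨{ toFun := fun g => ∏ ρ ∈ Js, κ ρ ^ (T.co Js (Multiplicative.toAdd g) ρ),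
            map_one' := ?_, map_mul' := ?_ }, fun g => rfl⟩
  · rw [toAdd_one, co_zero T hJs]
    exact Finset.prod_eq_one fun ρ _ => zpow_zero _
  · intro a b
    rw [toAdd_mul, co_add T hJs, ← Finset.prod_mul_distrib]
    exact Finset.prod_congr rfl fun ρ hρ => zpow_add₀ (hκ ρ hρ) _ _

/-- values of a character on a combination of degrees -/
private theorem red_sum {ι G M : Type*} [Fintype ι] [AddCommGroup G] [CommMonoid M] (w : ι → G)
    (χ : Multiplicative G →* M) (m : ι → ℕ) :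
    χ (Multiplicative.ofAdd (∑ i, m i • w i)) = ∏ i, χ (Multiplicative.ofAdd (w i)) ^ m i := by
  rw [ofAdd_sum, map_prod]
  exact Finset.prod_congr rfl fun i _ => by rw [ofAdd_nsmul, map_pow]

/-- the two factors of a product of maximal size have the maximal size -/
private theorem red_max {Γ : Type*} [LinearOrderedCommGroupWithZero Γ] {a b μ : Γ} (hμ : μ ≠ 0)
    (ha : a ≤ μ) (hb : b ≤ μ) (h : μ ^ 2 ≤ a * b) : a = μ := by
  refine le_antisymm ha ?_
  have h1 : μ * μ ≤ a * μ := by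
    rw [← sq]
    exact h.trans (mul_le_mul_right hb a)
  exact le_of_mul_le_mul_right h1 (zero_lt_iff.2 hμ)

theorem reduce {k L ι G Jt : Type*} [Field k] [Field L] [IsAlgClosed L] [Algebra k L]
    [Fintype ι] [DecidableEq ι] [AddCommGroup G] (T : ToricData ι G) (V : ValuationSubring L)
    (hk : ∀ c : k, algebraMap k L c ∈ V) (u : L) (hu : u ∈ V.nonunits)
    (F F0 : Jt → MvPolynomial ι k) (D : Jt → G)
    (hF : ∀ j, (F j).IsWeightedHomogeneous T.deg (D j))
    (hF0 : ∀ j, (F0 j).IsWeightedHomogeneous T.deg (D j))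
    (P : ι → L[X])
    (hP : ∀ j, MvPolynomial.aeval P (F j) + C u * MvPolynomial.aeval P (F0 j) = 0)
    (J : Finset ι) (ρ i' : ι) (hW : T.IsWall J ρ i') (hPJ : ∀ i ∈ J, P i = 1) (hPi : P i' = X) :
    ∃ (_ : Algebra k (IsLocalRing.ResidueField V)) (Q : ι → (IsLocalRing.ResidueField V)[X]),
      (∀ j, MvPolynomial.aeval Q (F j) = 0) ∧ IsCurve T Q := by
  classical
  obtain ⟨hJ, hρ, hi', hJ'⟩ := id hW
  obtain ⟨A, hA⟩ := T.ample
  have hApos := (ample_iff T A).1 hA
  -- the exponents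
  obtain ⟨m, hm⟩ : ∃ m : Finset ι → ι → ℕ, m = fun J i => (T.co J A i).toNat := ⟨_, rfl⟩
  have hmout : ∀ J ∈ T.charts, ∀ i, i ∉ J → m J i = 0 := by
    intro J hJ i hi
    rw [hm]
    show (T.co J A i).toNat = 0
    rw [(co_isCo T hJ A).1 i hi]
    rfl
  have hmco : ∀ J ∈ T.charts, ∀ i, (m J i : ℤ) = T.co J A i := by
    intro J hJ i
    by_cases hi : i ∈ J
    · rw [hm]
      exact Int.toNat_of_nonneg (hApos J hJ i hi).le
    · rw [hmout J hJ i hi, (co_isCo T hJ A).1 i hi]
      rfl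
  have hmdeg : ∀ J ∈ T.charts, ∑ i, m J i • T.deg i = A := by
    intro J hJ
    refine Eq.trans (Finset.sum_congr rfl fun i _ => ?_) (co_isCo T hJ A).2
    rw [← hmco J hJ i, natCast_zsmul]
  -- the disc
  have hone : ∏ i, P i ^ m J i = 1 := by
    refine Finset.prod_eq_one fun i _ => ?_
    by_cases hi : i ∈ J
    · rw [hPJ i hi, one_pow]
    · rw [hmout J hJ i hi, pow_zero]
  have hX : ∏ i, P i ^ m (insert i' (J.erase ρ)) i = X ^ m (insert i' (J.erase ρ)) i' := by
    rw [Finset.prod_eq_single i']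
    · rw [hPi]
    · intro i _ hne
      by_cases hi : i ∈ J
      · rw [hPJ i hi, one_pow]
      · rw [hmout _ hJ' i (fun h => (Finset.mem_insert.1 h).elim hne
          (fun h2 => hi (Finset.mem_of_mem_erase h2))), pow_zero]
    · intro h
      exact absurd (Finset.mem_univ _) h
  have hnpos : 0 < m (insert i' (J.erase ρ)) i' := by
    have h1 := hApos _ hJ' i' (Finset.mem_insert_self _ _)
    rw [← hmco _ hJ'] at h1
    exact_mod_cast h1
  obtain ⟨z, ρ0, μ, hρ0, hμ, hle, ⟨J1, hJ1⟩, ⟨J2, hJ2⟩, l, l', hmin⟩ := RC.disc V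
    (fun J : {J // J ∈ T.charts} => ∏ i, P i ^ m J.1 i) ⟨J, hJ⟩ ⟨insert i' (J.erase ρ), hJ'⟩
    (by
      show ∏ i, P i ^ m J i ≠ 0
      rw [hone]
      exact one_ne_zero)
    (by
      intro c hc
      have hc' : ∏ i, P i ^ m (insert i' (J.erase ρ)) i = C c * ∏ i, P i ^ m J i := hc
      rw [hone, hX, mul_one] at hc'
      have h2 := congrArg natDegree hc'
      rw [natDegree_X_pow, natDegree_C] at h2
      exact absurd h2 hnpos.ne')
  let φ : L[X] →ₐ[L] L[X] := Polynomial.aeval (C ρ0 * X + C z)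
  have hφ : ∀ p, φ p = p.comp (C ρ0 * X + C z) := fun p => rfl
  have hμv : V.valuation μ ≠ 0 := (Valuation.ne_zero_iff _).2 hμ
  have hle' : ∀ J ∈ T.charts, ∀ l, V.valuation ((φ (∏ i, P i ^ m J i)).coeff l) ≤ V.valuation μ :=
    fun J hJ l => hle ⟨J, hJ⟩ l
  have hmin0 : V.valuation ((φ (∏ i, P i ^ m J1 i)).coeff l * (φ (∏ i, P i ^ m J2 i)).coeff l' -
      (φ (∏ i, P i ^ m J1 i)).coeff l' * (φ (∏ i, P i ^ m J2 i)).coeff l) =
      V.valuation μ ^ 2 := hmin
  have hgnle : ∀ J ∈ T.charts, gn V (φ (∏ i, P i ^ m J i)) ≤ V.valuation μ :=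
    fun J hJ => gn_le V _ _ (hle' J hJ)
  have hgn1 : V.valuation μ ≤ gn V (φ (∏ i, P i ^ m J1 i)) := by
    have h1 := Valuation.map_sub V.valuation
      ((φ (∏ i, P i ^ m J1 i)).coeff l * (φ (∏ i, P i ^ m J2 i)).coeff l')
      ((φ (∏ i, P i ^ m J1 i)).coeff l' * (φ (∏ i, P i ^ m J2 i)).coeff l)
    rw [hmin0, le_max_iff, map_mul, map_mul] at h1
    rcases h1 with h1 | h1
    · rw [← red_max hμv (hle' J1 hJ1 l) (hle' J2 hJ2 l') h1]
      exact le_gn V _ _
    · rw [← red_max hμv (hle' J1 hJ1 l') (hle' J2 hJ2 l) h1]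
      exact le_gn V _ _
  -- semistability
  obtain ⟨v, hv⟩ : ∃ v : ι → V.ValueGroup, v = fun i => gn V (φ (P i)) := ⟨_, rfl⟩
  have hgnprod : ∀ J : Finset ι, gn V (φ (∏ i, P i ^ m J i)) = ∏ i, v i ^ m J i := by
    intro J
    rw [map_prod, gn_prod, hv]
    exact Finset.prod_congr rfl fun i _ => by rw [map_pow, gn_pow]
  obtain ⟨Js, hJs, hvne, hvle⟩ := semistable T v ⟨J, hJ, fun i hi => by
    rw [hv]
    show gn V (φ (P i)) ≠ 0
    rw [hPJ i hi, map_one, Ne, gn_eq_zero]
    exact one_ne_zero⟩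
  obtain ⟨χv, hχv⟩ := red_hom T hJs v hvne
  have hχv0 : ∀ g, χv (Multiplicative.ofAdd g) ≠ 0 := by
    intro g
    rw [hχv]
    exact Finset.prod_ne_zero_iff.2 fun ρ hρ => zpow_ne_zero _ (hvne ρ hρ)
  have hvle' : ∀ i, v i ≤ χv (Multiplicative.ofAdd (T.deg i)) := fun i => by
    rw [hχv]
    exact hvle i
  have hχA : χv (Multiplicative.ofAdd A) = V.valuation μ := by
    refine le_antisymm ?_ ?_
    · refine le_trans (le_of_eq ?_) (hgnle Js hJs)
      rw [hgnprod, hχv, ← Finset.prod_subset (Finset.subset_univ Js)]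
      · exact Finset.prod_congr rfl fun i _ => by rw [← hmco Js hJs i, zpow_natCast]
      · intro i _ hi
        rw [hmout Js hJs i hi, pow_zero]
    · refine hgn1.trans ?_
      rw [hgnprod, ← hmdeg J1 hJ1, red_sum]
      exact Finset.prod_le_prod' fun i _ => pow_le_pow_left' (hvle' i) _
  -- the rescaling
  have hkap0 : ∀ i, ∃ a : L, V.valuation a = v i := by
    intro i
    obtain ⟨l, hl⟩ := gn_attained V (φ (P i))
    exact ⟨_, by rw [hv]; exact hl⟩
  choose kap hkap using hkap0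
  have hkapne : ∀ i ∈ Js, (kap i)⁻¹ ≠ 0 := fun i hi => by
    refine inv_ne_zero fun h => hvne i hi ?_
    rw [← hkap i, h, map_zero]
  obtain ⟨χ, hχ⟩ := red_hom T hJs (fun i => (kap i)⁻¹) hkapne
  have hχval : ∀ g, V.valuation (χ (Multiplicative.ofAdd g)) =
      (χv (Multiplicative.ofAdd g))⁻¹ := by
    intro g
    rw [hχ, hχv, map_prod, ← Finset.prod_inv_distrib]
    exact Finset.prod_congr rfl fun i _ => by
      rw [map_zpow₀, map_inv₀, hkap, inv_zpow]
  obtain ⟨Q, hQ⟩ : ∃ Q : ι → L[X], Q = fun i =>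
    C (χ (Multiplicative.ofAdd (T.deg i))) * φ (P i) := ⟨_, rfl⟩
  have hQgn : ∀ i, gn V (Q i) = (χv (Multiplicative.ofAdd (T.deg i)))⁻¹ * v i := by
    intro i
    rw [hQ]
    show gn V (C (χ (Multiplicative.ofAdd (T.deg i))) * φ (P i)) = _
    rw [gn_mul, gn_C, hχval, hv]
  have hQV : ∀ i l, (Q i).coeff l ∈ V := by
    intro i l
    rw [← V.valuation_le_one_iff]
    refine (le_gn V (Q i) l).trans ?_
    rw [hQgn]
    calc (χv (Multiplicative.ofAdd (T.deg i)))⁻¹ * v i
        ≤ (χv (Multiplicative.ofAdd (T.deg i)))⁻¹ * χv (Multiplicative.ofAdd (T.deg i)) :=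
          mul_le_mul_right (hvle' i) _
      _ = 1 := inv_mul_cancel₀ (hχv0 _)
  have hQone : ∀ i ∈ Js, gn V (Q i) = 1 := by
    intro i hi
    have h1 : χv (Multiplicative.ofAdd (T.deg i)) = v i := by
      rw [hχv, co_deg T hJs hi, Finset.prod_eq_single i]
      · rw [Pi.single_eq_same, zpow_one]
      · intro b _ hb
        rw [Pi.single_eq_of_ne hb, zpow_zero]
      · intro h
        exact absurd hi h
    rw [hQgn, h1]
    exact inv_mul_cancel₀ (hvne i hi)
  have hq0 : ∀ i, ∃ q : V[X], q.map (algebraMap V L) = Q i := fun i => red_lift V (Q i) (hQV i)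
  choose q hq using hq0
  -- the algebra structures
  let ψ : k →+* V := (algebraMap k L).codRestrict V hk
  -- the equation for Q
  have hQeq : ∀ j, MvPolynomial.aeval Q (F j) + C u * MvPolynomial.aeval Q (F0 j) = 0 := by
    intro j
    have h2 : ∀ H : MvPolynomial ι k, H.IsWeightedHomogeneous T.deg (D j) →
        MvPolynomial.aeval Q H = C (χ (Multiplicative.ofAdd (D j))) * φ (MvPolynomial.aeval P H) := by
      intro H hH
      have h3 := aeval_scale T.deg H (D j) hH (fun i => φ (P i))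
        ((C : L →+* L[X]).toMonoidHom.comp χ)
      have h4 : φ (MvPolynomial.aeval P H) = MvPolynomial.aeval (fun i => φ (P i)) H :=
        MvPolynomial.comp_aeval_apply (φ := φ.restrictScalars k) (f := P) H
      rw [h4, hQ]
      exact h3
    have h5 := congrArg φ (hP j)
    rw [map_add, map_mul, map_zero] at h5
    have h6 : φ (C u) = C u := by
      rw [hφ, C_comp]
    rw [h6] at h5
    rw [h2 _ (hF j), h2 _ (hF0 j)]
    linear_combination C (χ (Multiplicative.ofAdd (D j))) * h5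
  have hinj : Function.Injective (Polynomial.map (algebraMap V L)) :=
    Polynomial.map_injective _ Subtype.val_injective
  have hu1 : u ∈ V := V.nonunits_subset hu
  have hu2 : IsLocalRing.residue V ⟨u, hu1⟩ = 0 := by
    obtain ⟨h3, h4⟩ := V.mem_nonunits_iff_exists_mem_maximalIdeal.1 hu
    exact (IsLocalRing.residue_eq_zero_iff _).2 h4
  have hmapE : ∀ H : MvPolynomial ι k, (Polynomial.map (algebraMap V L))
      (MvPolynomial.eval₂ ((C : V →+* V[X]).comp ψ) q H) = MvPolynomial.aeval Q H := by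
    intro H
    have h3 := MvPolynomial.eval₂_comp_left (Polynomial.mapRingHom (algebraMap V L))
      ((C : V →+* V[X]).comp ψ) q H
    rw [coe_mapRingHom] at h3
    rw [h3, MvPolynomial.aeval_def]
    have h4 : (Polynomial.mapRingHom (algebraMap V L)).comp ((C : V →+* V[X]).comp ψ) =
        algebraMap k L[X] := by
      ext1 x
      rw [RingHom.comp_apply, RingHom.comp_apply, coe_mapRingHom, map_C, Polynomial.algebraMap_apply]
      rfl
    have h5 : (Polynomial.map (algebraMap V L)) ∘ q = Q := by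
      funext i
      exact hq i
    rw [h4, h5]
  have hVeq : ∀ j, MvPolynomial.eval₂ ((C : V →+* V[X]).comp ψ) q (F j) +
      C ⟨u, hu1⟩ * MvPolynomial.eval₂ ((C : V →+* V[X]).comp ψ) q (F0 j) = 0 := by
    intro j
    apply hinj
    rw [Polynomial.map_add, Polynomial.map_mul, Polynomial.map_zero, hmapE, hmapE, map_C]
    exact hQeq j
  have hκeq : ∀ j, MvPolynomial.eval₂ ((C : IsLocalRing.ResidueField V →+*
      (IsLocalRing.ResidueField V)[X]).comp ((IsLocalRing.residue V).comp ψ))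
      (fun i => (q i).map (IsLocalRing.residue V)) (F j) = 0 := by
    intro j
    have h3 := MvPolynomial.eval₂_comp_left (Polynomial.mapRingHom (IsLocalRing.residue V))
      ((C : V →+* V[X]).comp ψ) q (F j)
    have h4 : (Polynomial.mapRingHom (IsLocalRing.residue V)).comp ((C : V →+* V[X]).comp ψ) =
        (C : IsLocalRing.ResidueField V →+* (IsLocalRing.ResidueField V)[X]).comp
          ((IsLocalRing.residue V).comp ψ) := by
      ext1 x
      rw [RingHom.comp_apply, RingHom.comp_apply, coe_mapRingHom, map_C]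
      rfl
    rw [h4] at h3
    have h5 := congrArg (Polynomial.mapRingHom (IsLocalRing.residue V)) (hVeq j)
    rw [map_add, map_mul, map_zero, coe_mapRingHom, map_C, hu2, C_0, zero_mul, add_zero] at h5
    rw [coe_mapRingHom] at h3
    rw [h5] at h3
    exact h3.symm
  -- coefficients of the monomials
  have hqprod : ∀ J ∈ T.charts, (∏ i, q i ^ m J i).map (algebraMap V L) =
      C (χ (Multiplicative.ofAdd A)) * φ (∏ i, P i ^ m J i) := by
    intro J hJ
    rw [Polynomial.map_prod, ← hmdeg J hJ, red_sum, map_prod, map_prod, ← Finset.prod_mul_distrib]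
    refine Finset.prod_congr rfl fun i _ => ?_
    rw [Polynomial.map_pow, hq, hQ, map_pow, map_pow]
    show (C (χ (Multiplicative.ofAdd (T.deg i))) * φ (P i)) ^ m J i = _
    rw [mul_pow]
  have hqcoef : ∀ J ∈ T.charts, ∀ l, algebraMap V L ((∏ i, q i ^ m J i).coeff l) =
      χ (Multiplicative.ofAdd A) * (φ (∏ i, P i ^ m J i)).coeff l := by
    intro J hJ l
    rw [← coeff_map, hqprod J hJ, coeff_C_mul]
  have hbar : ∀ (J : Finset ι) (l : ℕ),
      (∏ i, (q i).map (IsLocalRing.residue V) ^ m J i).coeff l =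
      IsLocalRing.residue V ((∏ i, q i ^ m J i).coeff l) := by
    intro J l
    rw [← coeff_map, Polynomial.map_prod]
    congr 1
    exact Finset.prod_congr rfl fun i _ => by rw [Polynomial.map_pow]
  have hmin' : (∏ i, (q i).map (IsLocalRing.residue V) ^ m J1 i).coeff l *
      (∏ i, (q i).map (IsLocalRing.residue V) ^ m J2 i).coeff l' -
      (∏ i, (q i).map (IsLocalRing.residue V) ^ m J1 i).coeff l' *
      (∏ i, (q i).map (IsLocalRing.residue V) ^ m J2 i).coeff l ≠ 0 := by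
    rw [hbar, hbar, hbar, hbar, ← map_mul, ← map_mul, ← map_sub]
    apply red_unit
    have h3 : (((∏ i, q i ^ m J1 i).coeff l * (∏ i, q i ^ m J2 i).coeff l' -
        (∏ i, q i ^ m J1 i).coeff l' * (∏ i, q i ^ m J2 i).coeff l : V) : L) =
        χ (Multiplicative.ofAdd A) * χ (Multiplicative.ofAdd A) *
        ((φ (∏ i, P i ^ m J1 i)).coeff l * (φ (∏ i, P i ^ m J2 i)).coeff l' -
        (φ (∏ i, P i ^ m J1 i)).coeff l' * (φ (∏ i, P i ^ m J2 i)).coeff l) := by
      have h8 : (((∏ i, q i ^ m J1 i).coeff l * (∏ i, q i ^ m J2 i).coeff l' -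
        (∏ i, q i ^ m J1 i).coeff l' * (∏ i, q i ^ m J2 i).coeff l : V) : L) =
        algebraMap V L ((∏ i, q i ^ m J1 i).coeff l) *
          algebraMap V L ((∏ i, q i ^ m J2 i).coeff l') -
        algebraMap V L ((∏ i, q i ^ m J1 i).coeff l') *
          algebraMap V L ((∏ i, q i ^ m J2 i).coeff l) := rfl
      rw [h8, hqcoef J1 hJ1, hqcoef J1 hJ1, hqcoef J2 hJ2, hqcoef J2 hJ2]
      ring
    rw [h3, map_mul, map_mul, hχval, hmin0, hχA, sq]
    rw [mul_assoc, ← mul_assoc (V.valuation μ)⁻¹ (V.valuation μ), inv_mul_cancel₀ hμv, one_mul,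
      inv_mul_cancel₀ hμv]
  let algκ : Algebra k (IsLocalRing.ResidueField V) := ((IsLocalRing.residue V).comp ψ).toAlgebra
  refine ⟨algκ, fun i => (q i).map (IsLocalRing.residue V), ?_, ⟨Js, hJs, ?_⟩,
    ⟨m J1, m J2, (hmdeg J1 hJ1).trans (hmdeg J2 hJ2).symm, ?_, ?_⟩⟩
  · intro j
    rw [MvPolynomial.aeval_def]
    exact hκeq j
  · intro i hi h0
    obtain ⟨l, hl⟩ := gn_attained V (Q i)
    rw [hQone i hi, ← hq i, coeff_map] at hl
    refine red_unit V _ hl ?_
    have h3 := congrArg (fun p => Polynomial.coeff p l) h0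
    simpa [coeff_map] using h3
  · intro h0
    apply hmin'
    rw [h0]
    simp
  · intro c hc
    apply hmin'
    rw [hc, coeff_C_mul, coeff_C_mul]
    ring

end Pool.Agent.Lib.MP_1e3e9c_ag.TV
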