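import Pool.Agent.Lib.MP_1e3e9c_ag.TV.Line
import Pool.Agent.Lib.MP_1e3e9c_ag.TV.Red
import Pool.Agent.Lib.MP_1e3e9c_ag.TV.Desc
import Pool.Agent.Lib.MP_1e3e9c_ag.TV.Clear
import Pool.Agent.Lib.MP_1e3e9c_ag.TV.Kleiman
import Pool.Agent.Lib.MP_1e3e9c_ag.RC.Val

/-! # Rational curves on complete intersections in smooth projective toric varieties -/

set_option autoImplicit false

namespace Pool.Agent.Lib.MP_1e3e9c_ag.TV

open Polynomial

/-- evaluation commutes with a change of the coefficient ring -/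
theorem map_aeval {k R S ι : Type*} [Field k] [CommRing R] [CommRing S] [Algebra k R] [Algebra k S]
    (φ : R →ₐ[k] S) (P : ι → R[X]) (F : MvPolynomial ι k) :
    (MvPolynomial.aeval P F).map (φ : R →+* S)
      = MvPolynomial.aeval (fun i => (P i).map (φ : R →+* S)) F := by
  have h : (Polynomial.mapAlgHom φ).comp (MvPolynomial.aeval P)
      = MvPolynomial.aeval (fun i => (P i).map (φ : R →+* S)) := by
    apply MvPolynomial.algHom_ext
    intro i
    simp
  have h2 := congrArg (fun ψ : MvPolynomial ι k →ₐ[k] S[X] => ψ F) h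
  simpa using h2

theorem exists_curve {k ι G : Type*} [Field k] [IsAlgClosed k] [Fintype ι] [DecidableEq ι]
    [AddCommGroup G] (T : ToricData ι G) (c : ℕ) (D : Fin c → G)
    (hD : ∀ j, IsAmple T.deg T.charts (D j))
    (F : Fin c → MvPolynomial ι k) (hF : ∀ j, (F j).IsWeightedHomogeneous T.deg (D j))
    (J : Finset ι) (ρ i' : ι) (hW : T.IsWall J ρ i')
    (hcount : T.co J (T.K + ∑ j, D j) ρ ≤ (Fintype.card ι : ℤ) - J.card - c - 3) :
    ∃ Q : ι → k[X], (∀ j, MvPolynomial.aeval Q (F j) = 0) ∧ IsCurve T Q ∧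
      ∀ t : k, ∃ J ∈ T.charts, ∀ i ∈ J, (Q i).eval t ≠ 0 := by
  classical
  obtain ⟨F0, hF0, P', hPJ', hPi', hg⟩ := line T J ρ i' hW c D hD F hF hcount
  let K0 := FractionRing (PowerSeries k)
  let L := AlgebraicClosure K0
  let φ : PowerSeries k →ₐ[k] L :=
    (IsScalarTower.toAlgHom k K0 L).comp (IsScalarTower.toAlgHom k (PowerSeries k) K0)
  have hφ : Function.Injective φ :=
    (FaithfulSMul.algebraMap_injective K0 L).comp (IsFractionRing.injective (PowerSeries k) K0)
  let τ : L := φ PowerSeries.X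
  have hτ : τ ≠ 0 := by
    intro h
    have h1 : φ PowerSeries.X = φ 0 := by rw [map_zero]; exact h
    exact PowerSeries.X_ne_zero (hφ h1)
  have hu : Transcendental k τ⁻¹ := by
    intro h
    have h1 : IsAlgebraic k τ := by
      have h2 := h.inv
      rwa [inv_inv] at h2
    have h3 : IsAlgebraic k (PowerSeries.X : PowerSeries k) :=
      (isAlgebraic_algHom_iff φ hφ).1 h1
    obtain ⟨p, hp0, hp⟩ := h3
    apply hp0
    have h4 : (p : PowerSeries k) = Polynomial.aeval (PowerSeries.X : PowerSeries k) p := by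
      have h5 : (Polynomial.coeToPowerSeries.algHom k : k[X] →ₐ[k] PowerSeries k)
          = Polynomial.aeval (PowerSeries.X : PowerSeries k) := by
        apply Polynomial.algHom_ext
        simp [Polynomial.coeToPowerSeries.algHom_apply]
      have h6 := congrArg (fun ψ : k[X] →ₐ[k] PowerSeries k => ψ p) h5
      simpa [Polynomial.coeToPowerSeries.algHom_apply] using h6
    rw [hp] at h4
    exact_mod_cast h4
  obtain ⟨V, hk, hV⟩ := RC.exists_val (k := k) (L := L) τ⁻¹ hu
  let P : ι → L[X] := fun i => (P' i).map (φ : PowerSeries k →+* L)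
  have hP : ∀ j, MvPolynomial.aeval P (F j) + C τ⁻¹ * MvPolynomial.aeval P (F0 j) = 0 := by
    intro j
    have h1 := congrArg (Polynomial.map (φ : PowerSeries k →+* L)) (hg j)
    rw [Polynomial.map_add, Polynomial.map_mul, Polynomial.map_zero, map_aeval, map_aeval,
      Polynomial.map_C] at h1
    have h2 : C τ⁻¹ * C τ = (1 : L[X]) := by
      rw [← C_mul, inv_mul_cancel₀ hτ, C_1]
    calc MvPolynomial.aeval P (F j) + C τ⁻¹ * MvPolynomial.aeval P (F0 j)
        = C τ⁻¹ * (MvPolynomial.aeval P (F0 j) + C τ * MvPolynomial.aeval P (F j)) := by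
          rw [mul_add, ← mul_assoc, h2, one_mul, add_comm]
      _ = 0 := by
          have h3 : MvPolynomial.aeval P (F0 j) + C τ * MvPolynomial.aeval P (F j) = 0 := h1
          rw [h3, mul_zero]
  have hz : ∀ i ∈ J, P i = 1 := fun i hi => by
    change (P' i).map _ = 1
    rw [hPJ' i hi, Polynomial.map_one]
  have hx : P i' = X := by
    change (P' i').map _ = X
    rw [hPi', Polynomial.map_X]
  obtain ⟨_, Q, hQ, hQC⟩ := reduce T V hk τ⁻¹ hV F F0 D hF hF0 P hP J ρ i' hW hz hx
  obtain ⟨Q1, hQ1, hQC1⟩ := descend T F Q hQ hQC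
  obtain ⟨Q2, hQ2, hQC2, h2⟩ := clear T F D hF Q1 hQ1 hQC1
  exact ⟨Q2, hQ2, hQC2, h2⟩

end Pool.Agent.Lib.MP_1e3e9c_ag.TV
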