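import Pool.Agent.Lib.MP_1e3e9c_ag.TV.Chart

/-! # SR: semistable reduction (the valuative criterion of properness in Cox coordinates)

JOB SR (90 lines; uses Chart).  Let `A` be ample.  Among the charts `J` with `v i ≠ 0` for all `i ∈ J` choose one for which
`M J = ∏_{i ∈ J} v i ^ (co J A i)` is maximal.  Let `i ∉ J` (for `i ∈ J` the claim is an equality, `co_deg`).  If `v i = 0` there is
nothing to do.  Otherwise let `(J, ρ, i)` be a wall, `J' = insert i (J.erase ρ)`: all `v i'`, `i' ∈ J'`, are `≠ 0`, so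
`M J' ≤ M J`.  With `θ = co J A ρ = co J' A i > 0` (`co_wall_self`), `co J' A ρ' = co J A ρ' - θ * co J (deg i) ρ'` (`co_wall`) and
`co J (deg i) ρ = 1` (`wall_one`) one gets `M J' = M J * (v i / ∏_{ρ' ∈ J} v ρ' ^ co J (deg i) ρ') ^ θ`, so
`(v i / ∏ ...) ^ θ ≤ 1` and (`θ > 0`) `v i ≤ ∏ ...`. -/

set_option autoImplicit false

namespace Pool.Agent.Lib.MP_1e3e9c_ag.TV

variable {ι G : Type*} [Fintype ι] [DecidableEq ι] [AddCommGroup G] (T : ToricData ι G)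

private theorem SR_pow_le {Γ : Type*} [LinearOrderedCommGroupWithZero Γ] {a b : Γ} {θ : ℤ}
    (hθ : 0 < θ) (h : a ^ θ ≤ b ^ θ) : a ≤ b := by
  obtain ⟨n, rfl⟩ := Int.eq_ofNat_of_zero_le hθ.le
  have hn : n ≠ 0 := by
    rintro rfl
    exact absurd hθ (by simp)
  rw [zpow_natCast, zpow_natCast] at h
  by_contra hlt
  rw [not_le] at hlt
  exact absurd (pow_lt_pow_left₀ hlt zero_le hn) (not_lt.2 h)

theorem semistable {Γ : Type*} [LinearOrderedCommGroupWithZero Γ] (v : ι → Γ)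
    (hv : ∃ J ∈ T.charts, ∀ i ∈ J, v i ≠ 0) :
    ∃ J ∈ T.charts, (∀ i ∈ J, v i ≠ 0) ∧
      ∀ i, v i ≤ ∏ ρ ∈ J, v ρ ^ (T.co J (T.deg i) ρ) := by
  classical
  obtain ⟨A, hA⟩ := T.ample
  obtain ⟨J₀, hJ₀, hv₀⟩ := hv
  have hne : (T.charts.filter fun J => ∀ i ∈ J, v i ≠ 0).Nonempty :=
    ⟨J₀, Finset.mem_filter.2 ⟨hJ₀, hv₀⟩⟩
  obtain ⟨J, hJ, hmax⟩ := Finset.exists_max_image _
    (fun J => ∏ i ∈ J, v i ^ (T.co J A i)) hne
  obtain ⟨hJc, hJv⟩ := Finset.mem_filter.1 hJ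
  refine ⟨J, hJc, hJv, fun i => ?_⟩
  by_cases hi : i ∈ J
  · rw [co_deg T hJc hi, Finset.prod_eq_single i]
    · rw [Pi.single_eq_same, zpow_one]
    · intro b _ hb
      rw [Pi.single_eq_of_ne hb, zpow_zero]
    · exact fun h => absurd hi h
  by_cases hvi : v i = 0
  · rw [hvi]; exact zero_le
  obtain ⟨ρ, hρ, hJ'⟩ := T.wall J hJc i hi
  have hW : T.IsWall J ρ i := ⟨hJc, hρ, hi, hJ'⟩
  have hJ'v : ∀ i' ∈ insert i (J.erase ρ), v i' ≠ 0 := by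
    intro i' hi'
    rcases Finset.mem_insert.1 hi' with h | h
    · rw [h]; exact hvi
    · exact hJv i' (Finset.mem_of_mem_erase h)
  have hle := hmax _ (Finset.mem_filter.2 ⟨hJ', hJ'v⟩)
  set θ := T.co J A ρ with hθ
  have hθ0 : 0 < θ := (ample_iff T A).1 hA J hJc ρ hρ
  have hie : i ∉ J.erase ρ := fun h => hi (Finset.mem_of_mem_erase h)
  set N := ∏ ρ' ∈ J, v ρ' ^ (T.co J (T.deg i) ρ') with hN
  set P := ∏ ρ' ∈ J.erase ρ, v ρ' ^ (T.co J (T.deg i) ρ') with hP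
  set R := ∏ ρ' ∈ J.erase ρ, v ρ' ^ (T.co J A ρ') with hR
  have hN1 : N = v ρ * P := by
    rw [hN, ← Finset.mul_prod_erase J _ hρ, wall_one T hW, zpow_one]
  have hM : ∏ i ∈ J, v i ^ (T.co J A i) = v ρ ^ θ * R := by
    rw [← Finset.mul_prod_erase J _ hρ]
  have hP0 : P ≠ 0 := by
    rw [hP]
    exact Finset.prod_ne_zero_iff.2 fun ρ' h => zpow_ne_zero _ (hJv ρ' (Finset.mem_of_mem_erase h))
  have hR0 : R ≠ 0 := by
    rw [hR]
    exact Finset.prod_ne_zero_iff.2 fun ρ' h => zpow_ne_zero _ (hJv ρ' (Finset.mem_of_mem_erase h))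
  have hM' : ∏ i' ∈ insert i (J.erase ρ), v i' ^ (T.co (insert i (J.erase ρ)) A i')
      = v i ^ θ * (R * (P ^ θ)⁻¹) := by
    rw [Finset.prod_insert hie, co_wall_self T hW, hR, hP, ← Finset.prod_zpow,
      ← Finset.prod_inv_distrib, ← Finset.prod_mul_distrib]
    congr 1
    refine Finset.prod_congr rfl fun ρ' h => ?_
    rw [co_wall T hW A (Finset.mem_of_mem_erase h) (Finset.ne_of_mem_erase h),
      zpow_sub₀ (hJv ρ' (Finset.mem_of_mem_erase h)), mul_comm (T.co J A ρ), zpow_mul, div_eq_mul_inv]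
  rw [hM, hM'] at hle
  apply SR_pow_le hθ0
  rw [hN1, mul_zpow]
  have hPθ : P ^ θ ≠ 0 := zpow_ne_zero _ hP0
  have h1 : v i ^ θ * (P ^ θ)⁻¹ * R ≤ v ρ ^ θ * R := by
    rw [mul_assoc, mul_comm (P ^ θ)⁻¹ R]
    exact hle
  have h2 : v i ^ θ * (P ^ θ)⁻¹ ≤ v ρ ^ θ := by
    have h3 := mul_le_mul_left h1 R⁻¹
    rwa [mul_assoc (v i ^ θ * (P ^ θ)⁻¹), mul_assoc (v ρ ^ θ), mul_inv_cancel₀ hR0, mul_one, mul_one] at h3
  have h4 := mul_le_mul_left h2 (P ^ θ)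
  rwa [mul_assoc, inv_mul_cancel₀ hPθ, mul_one] at h4

end Pool.Agent.Lib.MP_1e3e9c_ag.TV
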