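import Pool.Agent.Lib.MP_1e3e9c_ag.TV.Chart
import Pool.Agent.Lib.MP_1e3e9c_ag.TV.Gen

/-! # Spec: the special member of the toric complete intersection

JOB Spec (80 lines; uses Chart: `row2`, `co_isCo`, `co_add` ...).  For `s m j = some p` put
`i = y m` and `E = D j - deg i - p • deg i'`; all `co J E ρ' ≥ 0`, `ρ' ∈ J` (`row2`).  Let
`F0 j = ∑ m, (s m j).elim 0 (fun p => X (y m) * X i' ^ p * ∏ ρ' ∈ J, X ρ' ^ (co J E ρ').toNat)`.
Homogeneous of degree `D j`: `deg i + p • deg i' + ∑ ρ' ∈ J, (co J E ρ') • deg ρ' = D j` (`co_isCo`).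
Value at `pt y e g`, where `e ρ' = 1` for `ρ' ∈ J` and `e i' = X`: `∑ m, (s m j).elim 0 (fun p => X ^ p * g m)` (`y` is injective, `y m ∉ J`,
`y m ≠ i'`, so `pt y e g (y m) = g m`, `pt y e g ρ' = 1`, `pt y e g i' = X`). -/

set_option autoImplicit false

namespace Pool.Agent.Lib.MP_1e3e9c_ag.TV

open Polynomial

theorem pt_y {k ι : Type*} [Field k] {r : ℕ} (y : Fin r → ι) (hy : Function.Injective y)
    (e : ι → k[X]) {R : Type*} [CommRing R] [Algebra k R] (g : Fin r → R[X]) (m : Fin r) :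
    pt y e g (y m) = g m := by
  have h : ∃ m', y m' = y m := ⟨m, rfl⟩
  unfold pt
  rw [dif_pos h]
  exact congrArg g (hy h.choose_spec)

theorem pt_e {k ι : Type*} [Field k] {r : ℕ} (y : Fin r → ι)
    (e : ι → k[X]) {R : Type*} [CommRing R] [Algebra k R] (g : Fin r → R[X]) (i : ι)
    (hi : ∀ m, y m ≠ i) : pt y e g i = (e i).map (algebraMap k R) := by
  have h : ¬ ∃ m, y m = i := fun ⟨m, hm⟩ => hi m hm
  unfold pt
  rw [dif_neg h]

theorem special {k ι G : Type*} [Field k] [Fintype ι] [DecidableEq ι] [AddCommGroup G]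
    (T : ToricData ι G) (J : Finset ι) (ρ i' : ι) (hW : T.IsWall J ρ i') (r c : ℕ) (y : Fin r → ι)
    (hy : Function.Injective y) (hyJ : ∀ m, y m ∉ J) (hyi : ∀ m, y m ≠ i') (e : ι → k[X])
    (heJ : ∀ i ∈ J, e i = 1) (hei : e i' = X) (D : Fin c → G)
    (hD : ∀ j, IsAmple T.deg T.charts (D j)) (s : Fin r → Fin c → Option ℕ)
    (hs : ∀ m j p, s m j = some p → (p : ℤ) + T.co J (T.deg (y m)) ρ ≤ T.co J (D j) ρ) :
    ∃ F0 : Fin c → MvPolynomial ι k,
      (∀ j, (F0 j).IsWeightedHomogeneous T.deg (D j)) ∧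
      ∀ (g : Fin r → (PowerSeries k)[X]) (j : Fin c),
        MvPolynomial.aeval (pt y e g) (F0 j) = ∑ m, (s m j).elim 0 (fun p => X ^ p * g m) := by
  classical
  have hJ : J ∈ T.charts := hW.1
  let E : Fin r → Fin c → ℕ → G := fun m j p => D j - T.deg (y m) - p • T.deg i'
  let M : Fin r → Fin c → ℕ → MvPolynomial ι k := fun m j p =>
    MvPolynomial.X (y m) * MvPolynomial.X i' ^ p *
      ∏ ρ' ∈ J, MvPolynomial.X ρ' ^ (T.co J (E m j p) ρ').toNat
  have hM : ∀ m j p, s m j = some p → (M m j p).IsWeightedHomogeneous T.deg (D j) := by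
    intro m j p hp
    have h0 : ∀ ρ' ∈ J, 0 ≤ T.co J (E m j p) ρ' := fun ρ' hρ' =>
      row2 T hW (hD j) (hyJ m) (hyi m) p (hs m j p hp) hρ'
    have h1 : ∑ ρ' ∈ J, (T.co J (E m j p) ρ').toNat • T.deg ρ' = E m j p := by
      obtain ⟨h2, h3⟩ := co_isCo T hJ (E m j p)
      rw [← h3, h3]
      refine Eq.trans ?_ h3
      refine Eq.trans (Finset.sum_congr rfl fun ρ' hρ' => ?_)
        (Finset.sum_subset (Finset.subset_univ J) fun i _ hi => by rw [h2 i hi, zero_smul])
      rw [← natCast_zsmul, Int.toNat_of_nonneg (h0 ρ' hρ')]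
    have h2 : T.deg (y m) + p • T.deg i' + E m j p = D j := by
      show T.deg (y m) + p • T.deg i' + (D j - T.deg (y m) - p • T.deg i') = D j
      abel
    rw [← h2, ← h1]
    refine ((MvPolynomial.isWeightedHomogeneous_X k T.deg (y m)).mul
      ((MvPolynomial.isWeightedHomogeneous_X k T.deg i').pow p)).mul ?_
    exact MvPolynomial.IsWeightedHomogeneous.prod J _ _ fun ρ' _ =>
      (MvPolynomial.isWeightedHomogeneous_X k T.deg ρ').pow _
  refine ⟨fun j => ∑ m, (s m j).elim 0 (fun p => M m j p), fun j => ?_, fun g j => ?_⟩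
  · refine Submodule.sum_mem (MvPolynomial.weightedHomogeneousSubmodule k T.deg (D j)) fun m _ => ?_
    cases h : s m j with
    | none => exact Submodule.zero_mem _
    | some p => exact hM m j p h
  · rw [map_sum]
    refine Finset.sum_congr rfl fun m _ => ?_
    cases h : s m j with
    | none => exact map_zero _
    | some p =>
      show MvPolynomial.aeval (pt y e g) (M m j p) = X ^ p * g m
      have h1 : ∀ ρ' ∈ J, pt y e g ρ' = 1 := by
        intro ρ' hρ'
        rw [pt_e y e g ρ' (fun m' hm' => hyJ m' (hm' ▸ hρ')), heJ ρ' hρ', Polynomial.map_one]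
      have h2 : pt y e g i' = X := by
        rw [pt_e y e g i' hyi, hei, Polynomial.map_X]
      simp only [M, map_mul, map_pow, map_prod, MvPolynomial.aeval_X]
      rw [pt_y y hy e g m, h2, Finset.prod_congr rfl fun ρ' hρ' => by rw [h1 ρ' hρ', one_pow],
        Finset.prod_const_one, mul_one, mul_comm]

end Pool.Agent.Lib.MP_1e3e9c_ag.TV
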